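import Pool.Agent.V5helper25.TK.Fib

/-!
# MP_4a0782, circle extensions with constant number of periodic points: the dynamics of the functions
-/

set_option autoImplicit false
set_option linter.unusedSectionVars false

open scoped Topology
open Filter Set Metric

universe u v

namespace Pool.Agent.V5helper25.TK

open Pool.Agent.TH80.OMS Pool.Agent.N813.CX

/-- the map `F` followed by the rotation by `s` -/
def Rt {N : Type u} (F : N → N) (ψ : ℝ → N → N) (s : ℝ) : N → N := fun y => ψ s (F y)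

/-- the data: an extension by circle homeomorphisms, and for all points `v` over periodic points of the
base a function `S v` which gives the parameters for which the points of the fibre are periodic -/
structure TD {N : Type u} [MetricSpace N] {B : Type v} [MetricSpace B] (F : N ≃ₜ N)
    (ψ : ℝ → N → N) (a : N → ℝ → ℝ) (π : N → B) (f : B → B) (θ₀ : ℝ) (K : ℕ)
    (S : N → ℝ → ℝ) : Prop where
  top : TopExt F ψ a
  orb : OrbitMap F ψ π f
  clos : ClosingProp f
  pos : 0 < θ₀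
  sf : ∀ v, π v ∈ Per f → SF (S v) θ₀
  per : ∀ v, π v ∈ Per f → ∀ s, |s| < θ₀ → ∀ t, (ψ t v ∈ Per (Rt F ψ s) ↔ S v t = s)
  card : ∀ v, π v ∈ Per f → ∀ s, |s| < θ₀ → (Z (S v) s).ncard = K
  lip : ∀ v, π v ∈ Per f → ∀ t u, t ≤ u → S v u - S v t ≤ u - t

section

variable {N : Type u} [MetricSpace N] {B : Type v} [MetricSpace B] {F : N ≃ₜ N}
  {ψ : ℝ → N → N} {a : N → ℝ → ℝ} {π : N → B} {f : B → B} {θ₀ : ℝ} {K : ℕ} {S : N → ℝ → ℝ}

theorem a_int (h : TopExt F ψ a) (v : N) (j : ℤ) : a v j = j := by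
  have h2 : Function.Periodic (fun u => a v u - u) 1 := fun u => by
    show a v (u + 1) - (u + 1) = a v u - u
    rw [h.aone]
    ring
  have h3 := h2.int_mul j 0
  simp only [mul_one, zero_add, sub_zero] at h3
  rw [h.azero] at h3
  linarith

theorem a_surj (h : TopExt F ψ a) (v : N) : Function.Surjective (a v) := by
  intro c
  refine mem_range_of_exists_le_of_exists_ge (h.acont v) ⟨⌊c⌋, ?_⟩ ⟨⌈c⌉, ?_⟩
  · rw [a_int h]
    exact Int.floor_le c
  · rw [a_int h]
    exact Int.le_ceil c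

theorem a_inv (h : TopExt F ψ a) (v : N) : ∃ g : ℝ → ℝ, Continuous g ∧ ∀ t, a v (g t) = t := by
  let e := StrictMono.orderIsoOfSurjective (a v) (h.amono v) (a_surj h v)
  exact ⟨e.symm, e.symm.continuous, fun t => e.apply_symm_apply t⟩

theorem Rt_ext (h : TopExt F ψ a) (s t : ℝ) (v : N) :
    Rt F ψ s (ψ t v) = ψ (s + a v t) (F v) := by
  show ψ s (F (ψ t v)) = _
  rw [h.ext, h.add]

theorem Rt_inj (h : TopExt F ψ a) (s : ℝ) : Function.Injective (Rt F ψ s) := by
  intro x y hxy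
  have h1 : ψ s (F x) = ψ s (F y) := hxy
  have h2 := congrArg (ψ (-s)) h1
  rw [← h.add, ← h.add, neg_add_cancel, h.zero, h.zero] at h2
  exact F.injective h2

theorem Rt_surj (h : TopExt F ψ a) (s : ℝ) : Function.Surjective (Rt F ψ s) := by
  intro y
  refine ⟨F.symm (ψ (-s) y), ?_⟩
  show ψ s (F (F.symm (ψ (-s) y))) = y
  rw [F.apply_symm_apply, ← h.add, add_neg_cancel, h.zero]

theorem pi_psi (h : OrbitMap F ψ π f) (t : ℝ) (v : N) : π (ψ t v) = π v :=
  ((h.eq v (ψ t v)).2 ⟨t, rfl⟩).symm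

theorem orbR (h : OrbitMap F ψ π f) (s : ℝ) : OrbitMap (Rt F ψ s) ψ π f :=
  ⟨h.cont, h.surj, h.eq, fun x => by
    show π (ψ s (F x)) = f (π x)
    rw [pi_psi h, h.semi]⟩

theorem topR (h : TopExt F ψ a) (s : ℝ) : TopExt (Rt F ψ s) ψ a :=
  ⟨h.cont, h.zero, h.add, h.free, fun y t => by
    rw [Rt_ext h, add_comm, h.add]
    rfl, h.acont, h.amono, h.aone, h.azero⟩

theorem Rt_cont (h : TopExt F ψ a) (s : ℝ) : Continuous (Rt F ψ s) :=
  h.cont.comp (continuous_const.prodMk F.continuous)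

theorem f_inj (h : TopExt F ψ a) (ho : OrbitMap F ψ π f) : Function.Injective f := by
  intro x y hxy
  obtain ⟨v, rfl⟩ := ho.surj x
  obtain ⟨w, rfl⟩ := ho.surj y
  rw [← ho.semi, ← ho.semi] at hxy
  obtain ⟨t, ht⟩ := (ho.eq _ _).1 hxy
  obtain ⟨t', rfl⟩ := a_surj h v t
  rw [← h.ext] at ht
  rw [F.injective ht, pi_psi ho]

theorem per_f_step {x : B} (hx : x ∈ Per f) : f x ∈ Per f := by
  obtain ⟨m, hm, hx⟩ := hx
  refine ⟨m, hm, ?_⟩
  rw [← Function.iterate_succ_apply, Function.iterate_succ_apply', hx]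

theorem per_base (ho : OrbitMap F ψ π f) {s : ℝ} {w : N} (hw : w ∈ Per (Rt F ψ s)) :
    π w ∈ Per f := by
  obtain ⟨m, hm, hw⟩ := hw
  refine ⟨m, hm, ?_⟩
  rw [← CLOS.semi_iter (orbR ho s), hw]

theorem per_step {g : N → N} {w : N} (hw : w ∈ Per g) : g w ∈ Per g := by
  obtain ⟨m, hm, hw⟩ := hw
  refine ⟨m, hm, ?_⟩
  rw [← Function.iterate_succ_apply, Function.iterate_succ_apply', hw]

theorem per_iter {g : N → N} {w : N} (hw : w ∈ Per g) (l : ℕ) : g^[l] w ∈ Per g := by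
  induction l with
  | zero => exact hw
  | succ l ih => rw [Function.iterate_succ_apply']; exact per_step ih

theorem per_back {g : N → N} (hg : Function.Injective g) {w : N} (hw : g w ∈ Per g) :
    w ∈ Per g := by
  obtain ⟨m, hm, hw⟩ := hw
  refine ⟨m, hm, hg ?_⟩
  rw [← Function.iterate_succ_apply' g, Function.iterate_succ_apply, hw]

theorem per_iter_back {g : N → N} (hg : Function.Injective g) {w : N} {l : ℕ}
    (hw : g^[l] w ∈ Per g) : w ∈ Per g := by
  induction l with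
  | zero => exact hw
  | succ l ih =>
    rw [Function.iterate_succ_apply'] at hw
    exact ih (per_back hg hw)

namespace TD

variable (h : TD F ψ a π f θ₀ K S)

include h

theorem perF {v : N} (hv : π v ∈ Per f) : π (F v) ∈ Per f := by
  rw [h.orb.semi]
  exact per_f_step hv

theorem perFi {v : N} (hv : π v ∈ Per f) (j : ℕ) : π (F^[j] v) ∈ Per f := by
  induction j with
  | zero => exact hv
  | succ j ih =>
    rw [Function.iterate_succ_apply']
    exact h.perF ih

/-- the functions are equivariant -/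
theorem step {v : N} (hv : π v ∈ Per f) {t : ℝ} (ht : |S v t| < θ₀) :
    S (F v) (S v t + a v t) = S v t := by
  have h1 := (h.per v hv _ ht t).2 rfl
  have h2 := per_step h1
  rw [Rt_ext h.top] at h2
  exact (h.per (F v) (h.perF hv) _ ht _).1 h2

theorem step_back {v : N} (hv : π v ∈ Per f) {t t' : ℝ} (ht : |S (F v) t'| < θ₀)
    (he : a v t = t' - S (F v) t') : S v t = S (F v) t' := by
  have h1 := (h.per (F v) (h.perF hv) _ ht t').2 rfl
  have h2 : t' = S (F v) t' + a v t := by linarith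
  have h3 : Rt F ψ (S (F v) t') (ψ t v) = ψ t' (F v) := by
    rw [Rt_ext h.top, ← h2]
  rw [← h3] at h1
  exact (h.per v hv _ ht t).1 (per_back (Rt_inj h.top _) h1)

theorem at0 {v : N} {s : ℝ} (hs : |s| < θ₀) (hv : v ∈ Per (Rt F ψ s)) : S v 0 = s := by
  refine (h.per v (per_base h.orb hv) s hs 0).1 ?_
  rwa [h.top.zero]

theorem of0 {v : N} (hv : π v ∈ Per f) (hs : |S v 0| < θ₀) : v ∈ Per (Rt F ψ (S v 0)) := by
  have := (h.per v hv _ hs 0).2 rfl
  rwa [h.top.zero] at this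

end TD

/-- the level increases at a periodic point -/
def UpP (F : N → N) (ψ : ℝ → N → N) (θ₀ : ℝ) (w : N) (s : ℝ) : Prop :=
  ∀ ε : ℝ, 0 < ε → ∃ t, 0 < t ∧ t < ε ∧ ∃ s', s < s' ∧ s' < θ₀ ∧ ψ t w ∈ Per (Rt F ψ s')

/-- the function increases at `x` -/
def UpS (S : ℝ → ℝ) (x : ℝ) : Prop :=
  ∀ ε : ℝ, 0 < ε → ∃ t, x < t ∧ t < x + ε ∧ S x < S t

namespace TD

variable (h : TD F ψ a π f θ₀ K S)

include h

theorem up_iff {v : N} (hv : π v ∈ Per f) {x : ℝ} (hx : |S v x| < θ₀) :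
    UpP F ψ θ₀ (ψ x v) (S v x) ↔ UpS (S v) x := by
  have hx' := abs_lt.1 hx
  constructor
  · intro hu ε hε
    obtain ⟨t, ht, htε, s', h1, h2, h3⟩ := hu ε hε
    rw [← h.top.add] at h3
    have h4 := (h.per v hv s' (abs_lt.2 ⟨by linarith, h2⟩) _).1 h3
    exact ⟨t + x, by linarith, by linarith, by rw [h4]; exact h1⟩
  · intro hu ε hε
    have hc : ∀ᶠ u in 𝓝 x, |S v u| < θ₀ :=
      ((h.sf v hv).cont.abs.tendsto x).eventually_lt_const hx
    obtain ⟨ε', hε', hball⟩ := Metric.eventually_nhds_iff_ball.1 hc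
    obtain ⟨t, ht1, ht2, ht3⟩ := hu (min ε ε') (lt_min hε hε')
    have l1 := min_le_left ε ε'
    have l2 := min_le_right ε ε'
    have h4 := hball t (by
      rw [Metric.mem_ball, Real.dist_eq, abs_of_pos (by linarith)]
      linarith)
    refine ⟨t - x, by linarith, by linarith, S v t, ht3, (abs_lt.1 h4).2, ?_⟩
    rw [← h.top.add, sub_add_cancel]
    exact (h.per v hv _ h4 t).2 rfl

theorem up_step {w : N} {s : ℝ} (hs : |s| < θ₀) (hw : w ∈ Per (Rt F ψ s))
    (hu : UpP F ψ θ₀ w s) : UpP F ψ θ₀ (Rt F ψ s w) s := by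
  have hwb := per_base h.orb hw
  have h0 := h.at0 hs hw
  have hs' := abs_lt.1 hs
  have hc : Continuous fun t => S w t - s + a w t :=
    ((h.sf w hwb).cont.sub continuous_const).add (h.top.acont w)
  intro ε hε
  have hc0 : ∀ᶠ t in 𝓝 (0 : ℝ), S w t - s + a w t < ε := by
    refine (hc.tendsto 0).eventually_lt_const ?_
    rw [h0, h.top.azero]
    simpa using hε
  obtain ⟨ε', hε', hball⟩ := Metric.eventually_nhds_iff_ball.1 hc0
  obtain ⟨t, ht1, ht2, s', h1, h2, h3⟩ := hu ε' hε'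
  have hss : |s'| < θ₀ := abs_lt.2 ⟨by linarith, h2⟩
  have h4 : S w t = s' := (h.per w hwb s' hss t).1 h3
  have h5 := hball t (by rw [Metric.mem_ball, Real.dist_eq, sub_zero, abs_of_pos ht1]; exact ht2)
  have h6 : 0 < a w t := by
    have := h.top.amono w ht1
    rwa [h.top.azero] at this
  rw [h4] at h5
  refine ⟨s' - s + a w t, by linarith, h5, s', h1, h2, ?_⟩
  have h7 : ψ (s' - s + a w t) (Rt F ψ s w) = Rt F ψ s' (ψ t w) := by
    rw [Rt_ext h.top]
    show ψ (s' - s + a w t) (ψ s (F w)) = _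
    rw [← h.top.add]
    congr 1
    ring
  rw [h7]
  exact per_step h3

theorem up_iter {w : N} {s : ℝ} (hs : |s| < θ₀) (hw : w ∈ Per (Rt F ψ s))
    (hu : UpP F ψ θ₀ w s) (l : ℕ) : UpP F ψ θ₀ ((Rt F ψ s)^[l] w) s := by
  induction l with
  | zero => exact hu
  | succ l ih =>
    rw [Function.iterate_succ_apply']
    exact h.up_step hs (per_iter hw l) ih

theorem up_per {w : N} {s : ℝ} (hs : |s| < θ₀) (hw : w ∈ Per (Rt F ψ s)) (l : ℕ)
    (hu : UpP F ψ θ₀ ((Rt F ψ s)^[l] w) s) : UpP F ψ θ₀ w s := by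
  have hw' := hw
  obtain ⟨m, hm, hmw⟩ := hw
  have h1 := h.up_iter hs (per_iter hw' l) hu (m * l - l)
  rw [← Function.iterate_add_apply] at h1
  have h2 : m * l - l + l = m * l := Nat.sub_add_cancel (Nat.le_mul_of_pos_left l hm)
  rw [h2, Function.iterate_mul, Function.iterate_fixed hmw] at h1
  exact h1

end TD

/-- the local structure of the functions -/
theorem SF.up {S : ℝ → ℝ} {θ : ℝ} (h : SF S θ) {x κ : ℝ} (hκ : 0 < κ) (hx : |S x| + κ < θ)
    (hu : UpS S x) :
    ∃ α β, α < x ∧ x < β ∧ S α = S x - κ ∧ S β = S x + κ ∧ ∀ u ∈ Icc α β, |S u - S x| ≤ κ := by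
  have hb := abs_lt.1 (show |S x| < θ - κ by linarith)
  obtain ⟨α, β, hα, hβ, hab, hends⟩ := h.comp (x := x) (σ₁ := S x - κ) (σ₂ := S x + κ)
    (by linarith) (by linarith) (by linarith) (by linarith)
  have hall : ∀ u ∈ Icc α β, |S u - S x| ≤ κ := by
    intro u hu
    rcases eq_or_lt_of_le hu.1 with e1 | e1
    · rw [← e1]
      rcases hends with ⟨e, -⟩ | ⟨e, -⟩ <;> rw [e, abs_le] <;> constructor <;> linarith
    · rcases eq_or_lt_of_le hu.2 with e2 | e2
      · rw [e2]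
        rcases hends with ⟨-, e⟩ | ⟨-, e⟩ <;> rw [e, abs_le] <;> constructor <;> linarith
      · have h3 := hab u e1 e2
        rw [abs_le]
        constructor <;> linarith [h3.1, h3.2]
  rcases hends with ⟨e1, e2⟩ | ⟨e1, e2⟩
  · exact ⟨α, β, hα, hβ, e1, e2, hall⟩
  · exfalso
    obtain ⟨t, ht1, ht2, ht3⟩ := hu (β - x) (by linarith)
    obtain ⟨c, hc1, hc2⟩ := intermediate_value_Icc' (a := t) (b := β) (by linarith)
      h.cont.continuousOn (show S x ∈ Icc (S β) (S t) from ⟨by linarith, ht3.le⟩)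
    refine h.inj (t₁ := x) (t₂ := c) (by linarith [hc1.1]) hc2.symm fun u hu => ?_
    have h3 := abs_le.1 (hall u ⟨by linarith [hu.1], hu.2.trans hc1.2⟩)
    rw [abs_lt]
    constructor <;> linarith [h3.1, h3.2]

theorem SF.down {S : ℝ → ℝ} {θ : ℝ} (h : SF S θ) {x κ : ℝ} (hκ : 0 < κ) (hx : |S x| + κ < θ)
    (hu : ¬ UpS S x) :
    ∃ α β, α < x ∧ x < β ∧ S α = S x + κ ∧ S β = S x - κ ∧ ∀ u ∈ Icc α β, |S u - S x| ≤ κ := by
  have hb := abs_lt.1 (show |S x| < θ - κ by linarith)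
  obtain ⟨α, β, hα, hβ, hab, hends⟩ := h.comp (x := x) (σ₁ := S x - κ) (σ₂ := S x + κ)
    (by linarith) (by linarith) (by linarith) (by linarith)
  have hall : ∀ u ∈ Icc α β, |S u - S x| ≤ κ := by
    intro u hu
    rcases eq_or_lt_of_le hu.1 with e1 | e1
    · rw [← e1]
      rcases hends with ⟨e, -⟩ | ⟨e, -⟩ <;> rw [e, abs_le] <;> constructor <;> linarith
    · rcases eq_or_lt_of_le hu.2 with e2 | e2
      · rw [e2]
        rcases hends with ⟨-, e⟩ | ⟨-, e⟩ <;> rw [e, abs_le] <;> constructor <;> linarith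
      · have h3 := hab u e1 e2
        rw [abs_le]
        constructor <;> linarith [h3.1, h3.2]
  rcases hends with ⟨e1, e2⟩ | ⟨e1, e2⟩
  · exfalso
    apply hu
    intro ε hε
    obtain ⟨t, ht1, ht2⟩ := exists_between (show x < min β (x + ε) from lt_min hβ (by linarith))
    have l1 := min_le_left β (x + ε)
    have l2 := min_le_right β (x + ε)
    refine ⟨t, ht1, by linarith, ?_⟩
    by_contra hcon
    push Not at hcon
    obtain ⟨c, hc1, hc2⟩ := intermediate_value_Icc (a := t) (b := β) (by linarith)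
      h.cont.continuousOn (show S x ∈ Icc (S t) (S β) from ⟨hcon, by linarith⟩)
    refine h.inj (t₁ := x) (t₂ := c) (by linarith [hc1.1]) hc2.symm fun u hu => ?_
    have h3 := abs_le.1 (hall u ⟨by linarith [hu.1], hu.2.trans hc1.2⟩)
    rw [abs_lt]
    constructor <;> linarith [h3.1, h3.2]
  · exact ⟨α, β, hα, hβ, e1, e2, hall⟩

/-- pushing a strip along the orbit -/
theorem push {L : ℕ} {T Φ : ℕ → ℝ → ℝ} {x : ℕ → ℝ} {α β c κ : ℝ}
    (hΦ : ∀ i < L, Continuous (Φ i)) (hα : α ≤ x 0) (hβ : x 0 ≤ β)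
    (h0 : ∀ u ∈ Icc α β, |T 0 u - c| ≤ κ)
    (hstep : ∀ i < L, ∀ u, |T i u - c| ≤ κ → T (i + 1) (Φ i u) = T i u)
    (h1 : ∀ i < L, ∀ u, u ≤ x i → T i u = T 0 α → Φ i u ≤ x (i + 1))
    (h2 : ∀ i < L, ∀ u, x i ≤ u → T i u = T 0 β → x (i + 1) ≤ Φ i u) :
    |T L (x L) - c| ≤ κ := by
  have hαβ : α ≤ β := hα.trans hβ
  have key : ∀ i ≤ L, ∃ g : ℝ → ℝ, Continuous g ∧ (∀ u ∈ Icc α β, T i (g u) = T 0 u) ∧
      g α ≤ x i ∧ x i ≤ g β := by
    intro i
    induction i with
    | zero => exact fun _ => ⟨id, continuous_id, fun u _ => rfl, hα, hβ⟩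
    | succ i ih =>
      intro hi
      obtain ⟨g, hg, hT, hgα, hgβ⟩ := ih (by omega)
      refine ⟨fun u => Φ i (g u), (hΦ i (by omega)).comp hg, fun u hu => ?_, ?_, ?_⟩
      · show T (i + 1) (Φ i (g u)) = T 0 u
        rw [hstep i (by omega) (g u) (by rw [hT u hu]; exact h0 u hu), hT u hu]
      · exact h1 i (by omega) _ hgα (hT α (left_mem_Icc.2 hαβ))
      · exact h2 i (by omega) _ hgβ (hT β (right_mem_Icc.2 hαβ))
  obtain ⟨g, hg, hT, hgα, hgβ⟩ := key L le_rfl
  obtain ⟨u, hu, hgu⟩ := intermediate_value_Icc hαβ hg.continuousOn ⟨hgα, hgβ⟩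
  rw [← hgu, hT u hu]
  exact h0 u hu

/-- the positions of the orbit of the rotated map -/
noncomputable def posn (F : N → N) (a : N → ℝ → ℝ) (v : N) (s x : ℝ) : ℕ → ℝ
  | 0 => x
  | i + 1 => s + a (F^[i] v) (posn F a v s x i)

theorem posn_iter (h : TopExt F ψ a) (v : N) (s x : ℝ) (i : ℕ) :
    (Rt F ψ s)^[i] (ψ x v) = ψ (posn F a v s x i) (F^[i] v) := by
  induction i with
  | zero => rfl
  | succ i ih =>
    rw [Function.iterate_succ_apply', ih, Rt_ext h, Function.iterate_succ_apply']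
    rfl

namespace TD

variable (h : TD F ψ a π f θ₀ K S)

include h

theorem posn_S {v : N} (hv : π v ∈ Per f) {s x : ℝ} (hs : |s| < θ₀) (hx : S v x = s) (i : ℕ) :
    S (F^[i] v) (posn F a v s x i) = s := by
  have h1 := (h.per v hv s hs x).2 hx
  have h2 := per_iter h1 i
  rw [posn_iter h.top] at h2
  exact (h.per _ (h.perFi hv i) s hs _).1 h2

theorem up_posn {v : N} (hv : π v ∈ Per f) {s x : ℝ} (hs : |s| < θ₀) (hx : S v x = s) (i : ℕ) :
    UpS (S (F^[i] v)) (posn F a v s x i) ↔ UpS (S v) x := by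
  have h1 := (h.per v hv s hs x).2 hx
  have h2 := h.posn_S hv hs hx i
  have e1 := h.up_iff hv (x := x) (by rw [hx]; exact hs)
  have e2 := h.up_iff (h.perFi hv i) (x := posn F a v s x i) (by rw [h2]; exact hs)
  rw [hx] at e1
  rw [h2, ← posn_iter h.top] at e2
  rw [← e1, ← e2]
  exact ⟨h.up_per hs h1 i, fun hu => h.up_iter hs h1 hu i⟩

/-- **Forward transfer.** -/
theorem fwd {v v' : N} (hv : π v ∈ Per f) (hv' : π v' ∈ Per f) {κ s x : ℝ} (hκ : 0 < κ)
    (hs : |s| + 3 * κ < θ₀) (hx : S v' x = s) (hu : UpS (S v') x) (l L : ℕ)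
    (hE : ∀ t, |S (F^[l] v') t| ≤ |s| + 2 * κ → |S (F^[l] v) t - S (F^[l] v') t| ≤ κ)
    (ha : ∀ i, i < l + L → ∀ t, |a (F^[i] v) t - a (F^[i] v') t| ≤ κ) :
    |S (F^[l + L] v) (posn F a v' s x (l + L)) - s| ≤ 3 * κ := by
  have hs' : |s| < θ₀ := by linarith
  have hl := h.posn_S hv' hs' hx l
  have hul := (h.up_posn hv' hs' hx l).2 hu
  obtain ⟨α, β, hα, hβ, eα, eβ, hab⟩ := (h.sf _ (h.perFi hv' l)).up (κ := 2 * κ) (by linarith)
    (by rw [hl]; linarith) hul
  rw [hl] at eα eβ hab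
  have hE' : ∀ u ∈ Icc α β, |S (F^[l] v) u - S (F^[l] v') u| ≤ κ := by
    intro u hu
    refine hE u ?_
    have h3 := hab u hu
    have h4 := abs_sub_abs_le_abs_sub (S (F^[l] v') u) s
    linarith
  have hαβ : α ≤ β := by linarith
  refine push (T := fun i => S (F^[l + i] v))
    (Φ := fun i u => S (F^[l + i] v) u + a (F^[l + i] v) u)
    (x := fun i => posn F a v' s x (l + i)) (α := α) (β := β) ?_ hα.le hβ.le ?_ ?_ ?_ ?_
  · intro i _
    exact (h.sf _ (h.perFi hv _)).cont.add (h.top.acont _)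
  · intro u hu
    have h3 := hab u hu
    have h4 := hE' u hu
    show |S (F^[l] v) u - s| ≤ 3 * κ
    have h5 := abs_sub_le (S (F^[l] v) u) (S (F^[l] v') u) s
    linarith
  · intro i _ u hu
    show S (F^[l + (i + 1)] v) (S (F^[l + i] v) u + a (F^[l + i] v) u) = S (F^[l + i] v) u
    rw [← add_assoc, Function.iterate_succ_apply']
    refine h.step (h.perFi hv _) ?_
    have h4 := abs_sub_abs_le_abs_sub (S (F^[l + i] v) u) s
    have hu' : |S (F^[l + i] v) u - s| ≤ 3 * κ := hu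
    linarith
  · intro i hi u hu hT
    have hT' : S (F^[l + i] v) u = S (F^[l] v) α := hT
    have h3 := abs_le.1 (hE' α (left_mem_Icc.2 hαβ))
    have h4 := abs_le.1 (ha (l + i) (by omega) (posn F a v' s x (l + i)))
    have h5 := (h.top.amono (F^[l + i] v)).monotone hu
    show S (F^[l + i] v) u + a (F^[l + i] v) u ≤ posn F a v' s x (l + (i + 1))
    rw [← add_assoc]
    show S (F^[l + i] v) u + a (F^[l + i] v) u ≤ s + a (F^[l + i] v') (posn F a v' s x (l + i))
    rw [hT']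
    linarith [h3.1, h3.2, h4.1, h4.2]
  · intro i hi u hu hT
    have hT' : S (F^[l + i] v) u = S (F^[l] v) β := hT
    have h3 := abs_le.1 (hE' β (right_mem_Icc.2 hαβ))
    have h4 := abs_le.1 (ha (l + i) (by omega) (posn F a v' s x (l + i)))
    have h5 := (h.top.amono (F^[l + i] v)).monotone hu
    show posn F a v' s x (l + (i + 1)) ≤ S (F^[l + i] v) u + a (F^[l + i] v) u
    rw [← add_assoc]
    show s + a (F^[l + i] v') (posn F a v' s x (l + i)) ≤ S (F^[l + i] v) u + a (F^[l + i] v) u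
    rw [hT']
    linarith [h3.1, h3.2, h4.1, h4.2]

/-- **Backward transfer.** -/
theorem bwd {v v' : N} (hv : π v ∈ Per f) (hv' : π v' ∈ Per f) {κ s x : ℝ} (hκ : 0 < κ)
    (hs : |s| + 3 * κ < θ₀) (hx : S v' x = s) (hu : ¬ UpS (S v') x) (l : ℕ)
    (hE : ∀ t, |S (F^[l] v') t| ≤ |s| + 2 * κ → |S (F^[l] v) t - S (F^[l] v') t| ≤ κ)
    (ha : ∀ i, i < l → ∀ t, |a (F^[i] v) t - a (F^[i] v') t| ≤ κ) :
    |S v x - s| ≤ 3 * κ := by
  have hs' : |s| < θ₀ := by linarith
  have hl := h.posn_S hv' hs' hx l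
  have hul := fun hh => hu ((h.up_posn hv' hs' hx l).1 hh)
  obtain ⟨α, β, hα, hβ, eα, eβ, hab⟩ := (h.sf _ (h.perFi hv' l)).down (κ := 2 * κ) (by linarith)
    (by rw [hl]; linarith) hul
  rw [hl] at eα eβ hab
  have hE' : ∀ u ∈ Icc α β, |S (F^[l] v) u - S (F^[l] v') u| ≤ κ := by
    intro u hu
    refine hE u ?_
    have h3 := hab u hu
    have h4 := abs_sub_abs_le_abs_sub (S (F^[l] v') u) s
    linarith
  have hαβ : α ≤ β := by linarith
  choose ai hai hai' using a_inv h.top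
  have key := push (L := l) (T := fun i => S (F^[l - i] v))
    (Φ := fun i u => ai (F^[l - (i + 1)] v) (u - S (F^[l - i] v) u))
    (x := fun i => posn F a v' s x (l - i)) (α := α) (β := β) (c := s) (κ := 3 * κ)
    ?_ hα.le hβ.le ?_ ?_ ?_ ?_
  · simpa [posn] using key
  · intro i _
    exact (hai _).comp (continuous_id.sub (h.sf _ (h.perFi hv _)).cont)
  · intro u hu
    have h3 := hab u hu
    have h4 := hE' u hu
    show |S (F^[l] v) u - s| ≤ 3 * κ
    have h5 := abs_sub_le (S (F^[l] v) u) (S (F^[l] v') u) s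
    linarith
  · intro i hi u hu
    have e : l - i = l - (i + 1) + 1 := by omega
    have hu' : |S (F^[l - i] v) u - s| ≤ 3 * κ := hu
    have h4 := abs_sub_abs_le_abs_sub (S (F^[l - i] v) u) s
    have h5 : |S (F^[l - i] v) u| < θ₀ := by linarith
    show S (F^[l - (i + 1)] v) (ai (F^[l - (i + 1)] v) (u - S (F^[l - i] v) u)) =
      S (F^[l - i] v) u
    rw [e, Function.iterate_succ_apply'] at h5 ⊢
    exact h.step_back (h.perFi hv _) h5 (hai' _ _)
  · intro i hi u hu hT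
    have hT' : S (F^[l - i] v) u = S (F^[l] v) α := hT
    have hu' : u ≤ posn F a v' s x (l - i) := hu
    have h3 := abs_le.1 (hE' α (left_mem_Icc.2 hαβ))
    have h4 := abs_le.1 (ha (l - (i + 1)) (by omega) (posn F a v' s x (l - (i + 1))))
    have e : l - i = l - (i + 1) + 1 := by omega
    have h6 : posn F a v' s x (l - i) =
        s + a (F^[l - (i + 1)] v') (posn F a v' s x (l - (i + 1))) := by rw [e]; rfl
    refine (h.top.amono (F^[l - (i + 1)] v)).le_iff_le.1 ?_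
    show a (F^[l - (i + 1)] v) (ai (F^[l - (i + 1)] v) (u - S (F^[l - i] v) u)) ≤ _
    rw [hai', hT']
    linarith [h3.1, h3.2, h4.1, h4.2]
  · intro i hi u hu hT
    have hT' : S (F^[l - i] v) u = S (F^[l] v) β := hT
    have hu' : posn F a v' s x (l - i) ≤ u := hu
    have h3 := abs_le.1 (hE' β (right_mem_Icc.2 hαβ))
    have h4 := abs_le.1 (ha (l - (i + 1)) (by omega) (posn F a v' s x (l - (i + 1))))
    have e : l - i = l - (i + 1) + 1 := by omega
    have h6 : posn F a v' s x (l - i) =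
        s + a (F^[l - (i + 1)] v') (posn F a v' s x (l - (i + 1))) := by rw [e]; rfl
    refine (h.top.amono (F^[l - (i + 1)] v)).le_iff_le.1 ?_
    show _ ≤ a (F^[l - (i + 1)] v) (ai (F^[l - (i + 1)] v) (u - S (F^[l - i] v) u))
    rw [hai', hT']
    linarith [h3.1, h3.2, h4.1, h4.2]

end TD

end

end Pool.Agent.V5helper25.TK
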