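import Pool.Agent.V5helper25.TK.One
import Pool.Agent.N813.CX.Main

/-!
# MP_4a0782, circle extensions with constant number of periodic points: the function of a fibre
-/

set_option autoImplicit false

open scoped Manifold ContDiff Topology
open Filter Set Metric

universe u v

namespace Pool.Agent.V5helper25.TK

open Pool.Agent.H718R2.G Pool.Agent.W564.SC Pool.Agent.TH80.OMS Pool.Agent.TH290.CL
  Pool.Agent.N813.OF Pool.Agent.N813.CX

theorem SF.shift {S : ℝ → ℝ} {θ : ℝ} (h : SF S θ) (c : ℝ) : SF (fun t => S (t + c)) θ := by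
  refine ⟨h.cont.comp (continuous_id.add continuous_const), fun t => ?_, fun t ht he => ?_, ?_⟩
  · show S (t + 1 + c) = S (t + c)
    rw [← h.per (t + c)]
    congr 1
    ring
  · refine h.ext (t + c) ht ?_
    have hc : ContinuousAt (fun u : ℝ => u - c) (t + c) := by fun_prop
    have h1 : IsLocalExtr (fun u => S (u + c)) ((fun u : ℝ => u - c) (t + c)) := by
      simpa using he
    have h2 := IsLocalExtr.comp_continuous (g := fun u : ℝ => u - c) (b := t + c) h1 hc
    have h3 : ((fun u => S (u + c)) ∘ fun u : ℝ => u - c) = S := by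
      funext u
      simp
    rwa [h3] at h2
  · obtain ⟨t, ht⟩ := h.zero
    exact ⟨t - c, by simpa using ht⟩

theorem SF.val {S : ℝ → ℝ} {θ : ℝ} (h : SF S θ) {s : ℝ} (hs : |s| < θ) : ∃ t, S t = s := by
  obtain ⟨u, hu⟩ := h.high
  obtain ⟨w, hw⟩ := h.neg.high
  obtain ⟨h1, h2⟩ := abs_lt.1 hs
  exact mem_range_of_exists_le_of_exists_ge h.cont ⟨w, by linarith⟩ ⟨u, by linarith⟩

/-- the function of a monotone family -/
theorem exists_SF {G : ℝ → ℝ → ℝ} {θ₀ : ℝ} (hG : Fam1 G) (hN : NoTan G θ₀) (h0 : G 0 0 = 0) :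
    ∃ S : ℝ → ℝ, SF S θ₀ ∧ (∀ t u, t ≤ u → S u - S t ≤ u - t) ∧
      ∀ t s, S t = s ↔ G s t = t := by
  have hex : ∀ t, ∃ s, G s t = t := by
    intro t
    have hc : Continuous fun s => G s t := hG.cont.comp (continuous_id.prodMk continuous_const)
    refine mem_range_of_exists_le_of_exists_ge hc ⟨-|G 0 t - t|, ?_⟩ ⟨|G 0 t - t|, ?_⟩
    · have h1 := hG.inc (-|G 0 t - t|) 0 t (by simp)
      have h2 := le_abs_self (G 0 t - t)
      linarith
    · have h1 := hG.inc 0 |G 0 t - t| t (abs_nonneg _)
      have h2 := neg_abs_le (G 0 t - t)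
      linarith
  choose S hS using hex
  have huniq : ∀ t s, S t = s ↔ G s t = t := by
    intro t s
    constructor
    · rintro rfl
      exact hS t
    · intro h
      rcases lt_trichotomy (S t) s with h1 | h1 | h1
      · have := hG.inc _ _ t h1.le
        have := hS t
        linarith
      · exact h1
      · have := hG.inc _ _ t h1.le
        have := hS t
        linarith
  refine ⟨S, ⟨?_, ?_, ?_, 0, (huniq 0 0).2 h0⟩, ?_, huniq⟩
  · rw [continuous_iff_continuousAt]
    intro t
    rw [Metric.continuousAt_iff']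
    intro ε hε
    have c1 : ∀ s, Continuous fun u => G s u := fun s =>
      hG.cont.comp (continuous_const.prodMk continuous_id)
    have e1 : ∀ᶠ u in 𝓝 t, u < G (S t + ε) u := by
      refine continuousAt_id.eventually_lt (c1 _).continuousAt ?_
      have h1 := hG.inc (S t) (S t + ε) t (by linarith)
      have := hS t
      show t < _
      linarith
    have e2 : ∀ᶠ u in 𝓝 t, G (S t - ε) u < u := by
      refine (c1 _).continuousAt.eventually_lt continuousAt_id ?_
      have h1 := hG.inc (S t - ε) (S t) t (by linarith)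
      have := hS t
      show _ < t
      linarith
    filter_upwards [e1, e2] with u h1 h2
    rw [Real.dist_eq, abs_lt]
    have h3 := hS u
    constructor
    · by_contra hcon
      push Not at hcon
      have h4 := hG.inc (S u) (S t - ε) u (by linarith)
      linarith
    · by_contra hcon
      push Not at hcon
      have h4 := hG.inc (S t + ε) (S u) u (by linarith)
      linarith
  · intro t
    rw [huniq, hG.one, hS]
  · intro t ht he
    have h1 := hN (S t) 1 0 t ht le_rfl (by simpa using hS t)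
    rcases he with he | he
    · refine h1.2 ?_
      filter_upwards [he] with u hu
      have h2 := hG.inc (S t) (S u) u hu
      have h3 := hS u
      have hu' : S t ≤ S u := hu
      simp only [Function.iterate_one, Int.cast_zero, add_zero]
      linarith
    · refine h1.1 ?_
      filter_upwards [he] with u hu
      have h2 := hG.inc (S u) (S t) u hu
      have h3 := hS u
      have hu' : S u ≤ S t := hu
      simp only [Function.iterate_one, Int.cast_zero, add_zero]
      linarith
  · intro t u htu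
    by_contra hcon
    push Not at hcon
    have h1 := hS t
    have h2 := hS u
    have h3 := (hG.mono (S t)).monotone htu
    have h4 := hG.inc (S t) (S u) u (by linarith)
    linarith

theorem it_fix {g : ℝ → ℝ} (hm : StrictMono g) (h1 : ∀ t, g (t + 1) = g t + 1) {t₀ : ℝ}
    (h0 : g t₀ = t₀) {q : ℕ} (hq : 1 ≤ q) {t : ℝ} {p : ℤ} (ht : g^[q] t = t + p) : g t = t := by
  have hint : ∀ j : ℤ, g (t₀ + j) = t₀ + j := by
    intro j
    have h2 : Function.Periodic (fun u => g u - u) 1 := fun u => by
      show g (u + 1) - (u + 1) = g u - u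
      rw [h1]
      ring
    have h3 := h2.int_mul j t₀
    simp only [mul_one] at h3
    rw [h0] at h3
    linarith
  have hmq := hm.iterate q
  set j : ℤ := ⌊t - t₀⌋ with hj
  have l1 : t₀ + j ≤ t := by have := Int.floor_le (t - t₀); linarith
  have l2 : t < t₀ + ((j + 1 : ℤ) : ℝ) := by
    have := Int.lt_floor_add_one (t - t₀)
    push_cast
    linarith
  have m1 := hmq.monotone l1
  have m2 := hmq l2
  rw [Function.iterate_fixed (hint j)] at m1
  rw [Function.iterate_fixed (hint (j + 1))] at m2
  push_cast at m2 l2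
  have a1 : (p : ℝ) < 1 := by linarith
  have a2 : (-1 : ℝ) < p := by linarith
  have b1 : p < 1 := by exact_mod_cast a1
  have b2 : -1 < p := by exact_mod_cast a2
  have hp : p = 0 := by omega
  rw [hp, Int.cast_zero, add_zero] at ht
  rcases lt_trichotomy (g t) t with h3 | h3 | h3
  · have := hm.strictAnti_iterate_of_map_lt h3 (show 0 < q by omega)
    simp only [Function.iterate_zero, id] at this
    linarith
  · exact h3
  · have := hm.strictMono_iterate_of_lt_map h3 (show 0 < q by omega)
    simp only [Function.iterate_zero, id] at this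
    linarith

section

variable {n : ℕ} {N : Type u} [TopologicalSpace N] [T2Space N] [CompactSpace N]
  [ChartedSpace (V n) N] [IsManifold (𝓡 n) ∞ N] {r : ℕ∞}
variable {F : DiffM n N r} {ψ : ℝ → N → N} {a : N → ℝ → ℝ} {H : ℝ → DiffM n N r} {θ₀ : ℝ}

/-- the function of the fibre of `v` -/
theorem exS (hr : 1 ≤ r) (h : RotFam n N r F ψ a H θ₀) {B : Type v} [TopologicalSpace B]
    {π : N → B} {f : B → B} (hπ : OrbitMap F ψ π f) (v : N) (hv : π v ∈ Per f) :
    ∃ S : ℝ → ℝ, SF S θ₀ ∧ (∀ t u, t ≤ u → S u - S t ≤ u - t) ∧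
      ∀ s, |s| < θ₀ → ∀ t, (ψ t v ∈ Per (H s) ↔ S t = s) := by
  obtain ⟨m, hm, hmv⟩ := hv
  have e1 : π v = π (F^[m] v) := by
    rw [CLOS.semi_iter hπ, hmv]
  obtain ⟨c, hc⟩ := (hπ.eq _ _).1 e1
  obtain ⟨t₁, q, hq, hq'⟩ := lock hr h v m c hm hc
  have hH0' : (H 0 : N → N) = F := funext fun y => by rw [h.eq, h.top.zero]
  obtain ⟨G, hG, hT, hG0, hGe⟩ := lift_at hr h 0 (by rw [abs_zero]; exact h.pos) (ψ t₁ v) q 0 hq
    (by rw [hH0', h.top.zero]; exact hq')
  rw [abs_zero, sub_zero] at hT
  obtain ⟨S, hS, hSl, hSu⟩ := exists_SF hG hT hG0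
  refine ⟨fun t => S (t + -t₁), hS.shift _, fun t u htu => ?_, fun s hs t => ?_⟩
  · have h3 := hSl (t + -t₁) (u + -t₁) (by linarith)
    show S (u + -t₁) - S (t + -t₁) ≤ u - t
    linarith
  have e2 : ψ t v = ψ (t + -t₁) (ψ t₁ v) := by
    rw [← h.top.add]
    congr 1
    ring
  have hGs : ∀ u, (H s)^[q] (ψ u (ψ t₁ v)) = ψ (G s u) (ψ t₁ v) := by
    intro u
    have := hGe s u
    rwa [zero_add] at this
  rw [e2]
  constructor
  · rintro ⟨M, hM, hM'⟩
    have e3 : (H s)^[q * M] (ψ (t + -t₁) (ψ t₁ v)) = ψ (t + -t₁) (ψ t₁ v) := by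
      rw [mul_comm, Function.iterate_mul]
      exact Function.iterate_fixed hM' q
    rw [LIFT.iter_G hGs] at e3
    obtain ⟨j, hj⟩ := (eq_iff' h.top _ _ _).1 e3
    obtain ⟨t₀, ht₀⟩ := hS.val hs
    exact (hSu _ _).2 (it_fix (hG.mono s) (hG.one s) ((hSu _ _).1 ht₀) hM hj)
  · intro hs'
    refine ⟨q, hq, ?_⟩
    rw [hGs, (hSu _ _).1 hs']

end

end Pool.Agent.V5helper25.TK
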