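import Pool.Agent.V5helper25.TK.Lim
import Mathlib.Topology.ContinuousMap.SecondCountableSpace
import Mathlib.Topology.Covering.Basic

/-!
# MP_4a0782, circle extensions with constant number of periodic points: the theorem
-/

set_option autoImplicit false
set_option linter.unusedSectionVars false

open scoped Topology
open Filter Set Metric

universe u v

namespace Pool.Agent.V5helper25.TK

open Pool.Agent.TH80.OMS Pool.Agent.N813.CX Pool.Agent.N813.CX.CLOS

theorem conj_symm {N : Type u} [TopologicalSpace N] {F G : N → N} (hF : Continuous F)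
    (h : OmegaConj F G) : OmegaConj G F := by
  obtain ⟨h, hc⟩ := h
  refine ⟨h.symm, fun x y hxy => ?_⟩
  have h1 := hc (h.symm x) ⟨F (h.symm x), CONJ.omega_map hF (h.symm x).2⟩ rfl
  rw [h.apply_symm_apply, hxy] at h1
  have h2 : y = h ⟨F (h.symm x), CONJ.omega_map hF (h.symm x).2⟩ := Subtype.ext h1
  have h3 := congrArg h.symm h2
  rw [h.symm_apply_apply] at h3
  rw [h3]

theorem om_closed {N : Type u} [TopologicalSpace N] (F : N → N) : IsClosed (Omega F) := by
  rw [← isOpen_compl_iff, isOpen_iff_forall_mem_open]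
  intro x hx
  have hx' : ¬ ∀ W : Set N, IsOpen W → x ∈ W → ∃ k : ℕ, 1 ≤ k ∧ ∃ y ∈ W, F^[k] y ∈ W := hx
  push Not at hx'
  obtain ⟨W, hW, hxW, hno⟩ := hx'
  refine ⟨W, fun y hy hyO => ?_, hW, hxW⟩
  obtain ⟨k, hk, z, hz, hz'⟩ := hyO W hW hy
  exact hno k hk z hz hz'

theorem om_symm {N : Type u} [TopologicalSpace N] (F : N ≃ₜ N) {x : N} (hx : x ∈ Omega F) :
    F.symm x ∈ Omega F := by
  intro W hW hxW
  obtain ⟨k, hk, y, hy, hky⟩ := hx (F.symm ⁻¹' W) (hW.preimage F.symm.continuous) hxW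
  refine ⟨k, hk, F.symm y, hy, ?_⟩
  have h1 : F.symm (F^[k] y) ∈ W := hky
  have h2 : F^[k] (F.symm y) = F.symm (F^[k] y) := by
    apply F.injective
    rw [← Function.iterate_succ_apply' F, Function.iterate_succ_apply, F.apply_symm_apply,
      F.apply_symm_apply]
  rwa [h2]

theorem om_zpow {N : Type u} [TopologicalSpace N] (F : N ≃ₜ N) {x : N} (hx : x ∈ Omega F)
    (i : ℤ) : ((F.toEquiv : Equiv.Perm N) ^ i) x ∈ Omega F := by
  induction i with
  | zero => simpa using hx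
  | succ i ih =>
    rw [add_comm, zpow_add, zpow_one, Equiv.Perm.mul_apply]
    exact CONJ.omega_map F.continuous ih
  | pred i ih =>
    rw [sub_eq_add_neg, add_comm, zpow_add, zpow_neg_one, Equiv.Perm.mul_apply]
    exact om_symm F ih

/-- expansivity, stated for bi-infinite orbits -/
def ExpMap {B : Type v} [MetricSpace B] (f : B → B) : Prop :=
  ∃ e : ℝ, 0 < e ∧ ∀ x y : ℤ → B, (∀ i, f (x i) = x (i + 1)) → (∀ i, f (y i) = y (i + 1)) →
    (∀ i, dist (x i) (y i) < e) → x = y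

section

variable {N : Type u} [MetricSpace N] [CompactSpace N] {B : Type v} [MetricSpace B] {F : N ≃ₜ N}
  {ψ : ℝ → N → N} {a : N → ℝ → ℝ} {π : N → B} {f : B → B} {θ₀ : ℝ} {K : ℕ} {S : N → ℝ → ℝ}

/-- the nonwandering sets of the rotated maps -/
theorem om_eq (h : TD F ψ a π f θ₀ K S) (hconj : ∀ s, |s| < θ₀ → OmegaConj F (Rt F ψ s))
    (hd : Omega F ⊆ closure (Per F)) {s : ℝ} (hs : |s| < θ₀) :
    Omega (Rt F ψ s) = closure (Per (Rt F ψ s)) := by
  apply subset_antisymm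
  · exact CONJ.t N (Rt F ψ s) F (Rt_cont h.top s) (conj_symm F.continuous (hconj s hs)) hd
  · exact closure_minimal (CONJ.per_sub _) (om_closed _)

/-- **The theorem, for homeomorphisms.** -/
theorem final (h : TD F ψ a π f θ₀ K S) (hK : 0 < K) (hexp : ExpMap f)
    (hconj : ∀ s, |s| < θ₀ → OmegaConj F (Rt F ψ s)) (hd : Omega F ⊆ closure (Per F)) :
    (∃ W : Set (N × N), IsOpen W ∧ (∀ x, (x, x) ∈ W) ∧ ∀ x y : ℤ → N,
      (∀ i, x i ∈ Omega F) → (∀ i, y i ∈ Omega F) → (∀ i, F (x i) = x (i + 1)) →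
      (∀ i, F (y i) = y (i + 1)) → (∀ i, (x i, y i) ∈ W) → x = y) ∧
    (∃ g : Omega F → closure (Per f), IsCoveringMap g ∧
      (∀ x y : Omega F, F x = y → (g y : B) = f (g x)) ∧ ∀ y, {x | g x = y}.ncard = K) ∧
    ∃ E : Set ℝ, E.Countable ∧ ∀ s, |s| < θ₀ → s ∉ E → ∀ y ∈ closure (Per f),
      {x | x ∈ Omega (Rt F ψ s) ∧ π x = y}.ncard = K := by
  obtain ⟨e, he, hexp⟩ := hexp
  haveI : CompactSpace (Omega (F : N → N)) := isCompact_iff_compactSpace.1 (om_closed _).isCompact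
  haveI : CompactSpace B := ⟨by
    rw [← h.orb.surj.range_eq]
    exact isCompact_range h.orb.cont⟩
  have hex : ∀ s : {s : ℝ // |s| < θ₀}, ∃ c : Omega (F : N → N) ≃ₜ Omega (Rt F ψ s),
      ∀ x y : Omega (F : N → N), F x = y → Rt F ψ s (c x) = c y := fun s => hconj s s.2
  choose c hc using hex
  obtain ⟨Φ, hΦ⟩ : ∃ Φ : {s : ℝ // |s| < θ₀} → C(Omega (F : N → N), B),
      ∀ s x, Φ s x = π (c s x) := ⟨fun s => ⟨fun x => π (c s x),
        h.orb.cont.comp (continuous_subtype_val.comp (c s).continuous)⟩, fun s x => rfl⟩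
  have semi : ∀ s, ∀ x y : Omega (F : N → N), F x = y → Φ s y = f (Φ s x) := by
    intro s x y hxy
    rw [hΦ, hΦ, ← hc s x y hxy]
    exact (orbR h.orb (s : ℝ)).semi _
  -- the maps are separated
  have sep : ∀ s s', (∀ x, dist (Φ s x) (Φ s' x) < e) → Φ s = Φ s' := by
    intro s s' hss
    ext x
    let z : ℤ → Omega (F : N → N) := fun i =>
      ⟨((F.toEquiv : Equiv.Perm N) ^ i) x, om_zpow F x.2 i⟩
    have hz : ∀ i, F (z i) = z (i + 1) := by
      intro i
      show F (((F.toEquiv : Equiv.Perm N) ^ i) x) = ((F.toEquiv : Equiv.Perm N) ^ (i + 1)) x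
      rw [add_comm, zpow_add, zpow_one, Equiv.Perm.mul_apply]
      rfl
    have h1 := hexp (fun i => Φ s (z i)) (fun i => Φ s' (z i))
      (fun i => (semi s _ _ (hz i)).symm) (fun i => (semi s' _ _ (hz i)).symm)
      fun i => hss (z i)
    have h2 := congrFun h1 0
    have h3 : z 0 = x := by
      apply Subtype.ext
      show ((F.toEquiv : Equiv.Perm N) ^ (0 : ℤ)) x = x
      rw [zpow_zero]
      rfl
    rwa [h3] at h2
  have hrange : (Set.range Φ).Countable := by
    have h1 : (Set.range Φ).PairwiseDisjoint fun g => ball g (e / 2) := by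
      rintro _ ⟨s, rfl⟩ _ ⟨s', rfl⟩ hne
      refine Set.disjoint_left.2 fun g hg hg' => hne (sep s s' fun x => ?_)
      have h2 : dist (Φ s) (Φ s') < e := by
        rw [mem_ball] at hg hg'
        have := dist_triangle_left (Φ s) (Φ s') g
        linarith
      exact (ContinuousMap.dist_lt_iff he).1 h2 x
    exact h1.countable_of_isOpen (fun _ _ => isOpen_ball)
      fun g _ => ⟨g, mem_ball_self (by linarith)⟩
  obtain ⟨E, hE⟩ : ∃ E : Set ℝ, E = {s | ∃ hs : |s| < θ₀,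
      {s' | Φ s' = Φ ⟨s, hs⟩}.Countable} := ⟨_, rfl⟩
  have hEc : E.Countable := by
    have h1 : (⋃ g ∈ Set.range Φ, {s' | Φ s' = g ∧ {s'' | Φ s'' = g}.Countable}).Countable := by
      refine hrange.biUnion fun g _ => ?_
      by_cases hg : {s'' | Φ s'' = g}.Countable
      · exact hg.mono fun s' hs' => hs'.1
      · have : {s' | Φ s' = g ∧ {s'' | Φ s'' = g}.Countable} = ∅ := by
          ext s'
          simp only [mem_ofPred_eq, mem_empty_iff_false, iff_false]
          exact fun hh => hg hh.2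
        rw [this]
        exact countable_empty
    refine (h1.image Subtype.val).mono ?_
    rw [hE]
    rintro s ⟨hs, hs'⟩
    refine ⟨⟨s, hs⟩, ?_, rfl⟩
    simp only [mem_iUnion]
    exact ⟨Φ ⟨s, hs⟩, ⟨_, rfl⟩, rfl, hs'⟩
  -- the number of points
  have tr : ∀ (s : {s : ℝ // |s| < θ₀}) (y : B),
      {x | x ∈ Omega (Rt F ψ s) ∧ π x = y} = (fun ω => ((c s ω : Omega (Rt F ψ s)) : N)) ''
        {ω | Φ s ω = y} := by
    intro s y
    ext x
    constructor
    · rintro ⟨hx1, hx2⟩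
      refine ⟨(c s).symm ⟨x, hx1⟩, ?_, ?_⟩
      · show Φ s ((c s).symm ⟨x, hx1⟩) = y
        rw [hΦ, (c s).apply_symm_apply]
        exact hx2
      · show ((c s ((c s).symm ⟨x, hx1⟩) : Omega (Rt F ψ s)) : N) = x
        rw [(c s).apply_symm_apply]
    · rintro ⟨ω, hω, rfl⟩
      refine ⟨(c s ω).2, ?_⟩
      rw [← hΦ]
      exact hω
  have trc : ∀ (s : {s : ℝ // |s| < θ₀}) (y : B),
      {x | x ∈ Omega (Rt F ψ s) ∧ π x = y}.ncard = {ω | Φ s ω = y}.ncard := by
    intro s y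
    rw [tr, Set.ncard_image_of_injective]
    exact Subtype.val_injective.comp (c s).injective
  have count : ∀ s : {s : ℝ // |s| < θ₀}, (s : ℝ) ∉ E → ∀ y ∈ closure (Per f),
      {x | x ∈ Omega (Rt F ψ s) ∧ π x = y}.ncard = K := by
    intro s hs y hy
    obtain ⟨v₀, rfl⟩ := h.orb.surj y
    have hbad : {s' : {s : ℝ // |s| < θ₀} | ∃ r : ℚ, ψ r v₀ ∈ Cl F ψ s'}.Countable := by
      have h1 : {s' : {s : ℝ // |s| < θ₀} | ∃ r : ℚ, ψ r v₀ ∈ Cl F ψ s'} =
          ⋃ r : ℚ, {s' : {s : ℝ // |s| < θ₀} | ψ r v₀ ∈ Cl F ψ s'} := by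
        ext s'
        simp
      rw [h1]
      refine countable_iUnion fun r => Set.Subsingleton.countable ?_
      intro s₁ h1 s₂ h2
      exact Subtype.ext (h.cl_disj s₁.2 s₂.2 h1 h2)
    have hunc : ¬ {s' | Φ s' = Φ s}.Countable := fun hh => hs (by rw [hE]; exact ⟨s.2, hh⟩)
    obtain ⟨s', hs1, hs2⟩ : ∃ s', Φ s' = Φ s ∧ ∀ r : ℚ, ψ r v₀ ∉ Cl F ψ s' := by
      by_contra hcon
      push Not at hcon
      exact hunc (hbad.mono fun s' hs' => hcon s' hs')
    have h2 := h.exact hK s'.2 hy hs2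
    rw [← om_eq h hconj hd s'.2, trc, hs1] at h2
    rw [trc]
    exact h2
  have hunI : ¬ (Ioo (-θ₀) θ₀).Countable := by
    intro hc
    have h1 := Cardinal.le_aleph0_iff_set_countable.2 hc
    rw [Cardinal.mk_Ioo_real (by linarith [h.pos])] at h1
    exact absurd h1 (not_le.2 Cardinal.aleph0_lt_continuum)
  obtain ⟨s₀, hs₀, hs₀E⟩ : ∃ s₀ : ℝ, |s₀| < θ₀ ∧ s₀ ∉ E := by
    by_contra hcon
    push Not at hcon
    exact hunI (hEc.mono fun s hs => hcon s (abs_lt.2 hs))
  -- the good parameter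
  obtain ⟨σ, hσ⟩ : ∃ σ : {s : ℝ // |s| < θ₀}, (σ : ℝ) = s₀ := ⟨⟨s₀, hs₀⟩, rfl⟩
  obtain ⟨γ, hγ⟩ : ∃ γ, γ = θ₀ - |(σ : ℝ)| := ⟨_, rfl⟩
  have hγ0 : 0 < γ := by rw [hγ]; linarith [σ.2]
  have hO := om_eq h hconj hd σ.2
  have cnt : ∀ y ∈ closure (Per f), {x | x ∈ closure (Per (Rt F ψ σ)) ∧ π x = y}.ncard = K := by
    intro y hy
    rw [← hO]
    exact count σ (by rwa [hσ]) y hy
  have hmem : ∀ ω, ((c σ ω : Omega (Rt F ψ σ)) : N) ∈ closure (Per (Rt F ψ σ)) := by
    intro ω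
    rw [← hO]
    exact (c σ ω).2
  have hsub : ∀ x ∈ closure (Per (Rt F ψ σ)), π x ∈ closure (Per f) := fun x hx =>
    map_mem_closure h.orb.cont hx fun w hw => per_base h.orb hw
  have gapP : ∀ x x', x ∈ closure (Per (Rt F ψ σ)) → x' ∈ closure (Per (Rt F ψ σ)) →
      π x = π x' → x ≠ x' → ∃ t ∈ Icc γ (1 - γ), x' = ψ t x := by
    intro x x' hx hx' hxx hne
    rw [hγ]
    exact h.exact_gap hK σ.2 (hsub x hx) (cnt _ (hsub x hx)) ⟨hx, rfl⟩ ⟨hx', hxx.symm⟩ hne
  obtain ⟨δ, hδ, hδ'⟩ := u1 h.top γ hγ0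
  have close : ∀ x x', x ∈ closure (Per (Rt F ψ σ)) → x' ∈ closure (Per (Rt F ψ σ)) →
      π x = π x' → dist x' x < δ → x = x' := by
    intro x x' hx hx' hxx hd
    by_contra hne
    obtain ⟨t, ht, rfl⟩ := gapP x x' hx hx' hxx hne
    obtain ⟨ρ, hρ, hρ'⟩ := hδ' x t hd
    obtain ⟨j, hj⟩ := (psi_eq h.top _ _ _).1 hρ'
    obtain ⟨r1, r2⟩ := abs_lt.1 hρ
    have l1 : (0 : ℝ) < j := by linarith [ht.1]
    have l2 : (j : ℝ) < 1 := by linarith [ht.2]
    have m1 : 0 < j := by exact_mod_cast l1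
    have m2 : j < 1 := by exact_mod_cast l2
    omega
  refine ⟨?_, ?_, E, hEc, fun s hs hsE y hy => count ⟨s, hs⟩ hsE y hy⟩
  · obtain ⟨δπ, hδπ, hπ⟩ := Metric.uniformContinuous_iff.1
      (CompactSpace.uniformContinuous_of_continuous h.orb.cont) e he
    obtain ⟨ρ, hρ, r1, r2⟩ : ∃ ρ : ℝ, 0 < ρ ∧ ρ ≤ δ ∧ ρ ≤ δπ :=
      ⟨min δ δπ, by positivity, min_le_left _ _, min_le_right _ _⟩
    refine ⟨{p | ∀ (h1 : p.1 ∈ Omega F) (h2 : p.2 ∈ Omega F),
      dist ((c σ ⟨p.1, h1⟩ : Omega (Rt F ψ σ)) : N) (c σ ⟨p.2, h2⟩) < ρ}, ?_, ?_, ?_⟩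
    · rw [← isClosed_compl_iff]
      have h1 : {p : N × N | ∀ (h1 : p.1 ∈ Omega F) (h2 : p.2 ∈ Omega F),
          dist ((c σ ⟨p.1, h1⟩ : Omega (Rt F ψ σ)) : N) (c σ ⟨p.2, h2⟩) < ρ}ᶜ =
          (fun q : Omega (F : N → N) × Omega (F : N → N) => ((q.1 : N), (q.2 : N))) ''
            {q | ρ ≤ dist ((c σ q.1 : Omega (Rt F ψ σ)) : N) (c σ q.2)} := by
        ext ⟨x, y⟩
        simp only [mem_compl_iff, mem_ofPred_eq, mem_image, Prod.mk.injEq, Prod.exists]
        constructor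
        · intro hh
          push Not at hh
          obtain ⟨h1, h2, h3⟩ := hh
          exact ⟨⟨x, h1⟩, ⟨y, h2⟩, h3, rfl, rfl⟩
        · rintro ⟨x', y', h3, rfl, rfl⟩ hh
          exact absurd (hh x'.2 y'.2) (not_lt.2 h3)
      rw [h1]
      refine IsCompact.isClosed (IsCompact.image (IsClosed.isCompact ?_) (by fun_prop))
      refine isClosed_le continuous_const ?_
      exact (continuous_subtype_val.comp ((c σ).continuous.comp continuous_fst)).dist
        (continuous_subtype_val.comp ((c σ).continuous.comp continuous_snd))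
    · intro x h1 h2
      rw [dist_self]
      exact hρ
    · intro x y hx hy hFx hFy hW
      have key : ∀ i, dist ((c σ ⟨x i, hx i⟩ : Omega (Rt F ψ σ)) : N) (c σ ⟨y i, hy i⟩) < ρ :=
        fun i => hW i (hx i) (hy i)
      have e1 : ∀ i, f (π (c σ ⟨x i, hx i⟩)) = π (c σ ⟨x (i + 1), hx (i + 1)⟩) := by
        intro i
        rw [← (orbR h.orb (σ : ℝ)).semi, hc σ ⟨x i, hx i⟩ ⟨x (i + 1), hx (i + 1)⟩ (hFx i)]
      have e2 : ∀ i, f (π (c σ ⟨y i, hy i⟩)) = π (c σ ⟨y (i + 1), hy (i + 1)⟩) := by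
        intro i
        rw [← (orbR h.orb (σ : ℝ)).semi, hc σ ⟨y i, hy i⟩ ⟨y (i + 1), hy (i + 1)⟩ (hFy i)]
      have e3 := hexp (fun i => π (c σ ⟨x i, hx i⟩)) (fun i => π (c σ ⟨y i, hy i⟩)) e1 e2
        fun i => hπ ((key i).trans_le r2)
      funext i
      have e4 := close _ _ (hmem ⟨x i, hx i⟩) (hmem ⟨y i, hy i⟩) (congrFun e3 i)
        (by rw [dist_comm]; exact (key i).trans_le r1)
      have e5 := (c σ).injective (Subtype.ext e4)
      exact congrArg Subtype.val e5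
  · have hsub' : ∀ ω, Φ σ ω ∈ closure (Per f) := by
      intro ω
      rw [hΦ]
      exact hsub _ (hmem ω)
    obtain ⟨g, hg⟩ : ∃ g : Omega (F : N → N) → closure (Per f), ∀ ω, (g ω : B) = Φ σ ω :=
      ⟨fun ω => ⟨Φ σ ω, hsub' ω⟩, fun ω => rfl⟩
    have hgc : Continuous g := by
      rw [continuous_induced_rng]
      have : (Subtype.val ∘ g) = Φ σ := funext hg
      rw [this]
      exact (Φ σ).continuous
    refine ⟨g, ?_, fun x y hxy => by rw [hg, hg]; exact semi σ x y hxy, fun y => ?_⟩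
    · have hopen : IsOpenMap g := by
        intro U hU
        rw [isOpen_iff_forall_mem_open]
        rintro _ ⟨x₀, hx₀, rfl⟩
        obtain ⟨Uo, hUo, hUo'⟩ := isOpen_induced_iff.1 (hU.preimage (c σ).symm.continuous)
        have hUm : ∀ q : Omega (Rt F ψ σ), (q : N) ∈ Uo ↔ (c σ).symm q ∈ U := by
          intro q
          have : q ∈ (Subtype.val ⁻¹' Uo : Set (Omega (Rt F ψ σ))) ↔ q ∈ (c σ).symm ⁻¹' U := by
            rw [hUo']
          exact this
        have hVo : IsOpen {e : Fin K → N | ∃ i, e i ∈ Uo} := by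
          have : {e : Fin K → N | ∃ i, e i ∈ Uo} =
              ⋃ i, (fun e : Fin K → N => e i) ⁻¹' Uo := by
            ext e
            simp
          rw [this]
          exact isOpen_iUnion fun i => hUo.preimage (continuous_apply i)
        have hD : IsClosed (TD.Tup F ψ K (σ : ℝ) γ ∩ {e : Fin K → N | ∃ i, e i ∈ Uo}ᶜ) :=
          (h.tup_closed _ _).inter hVo.isClosed_compl
        have hP : IsClosed ((fun e : Fin K → N => π (e ⟨0, hK⟩)) ''
            (TD.Tup F ψ K (σ : ℝ) γ ∩ {e : Fin K → N | ∃ i, e i ∈ Uo}ᶜ)) :=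
          (hD.isCompact.image (h.orb.cont.comp (continuous_apply _))).isClosed
        refine ⟨{y | (y : B) ∉ (fun e : Fin K → N => π (e ⟨0, hK⟩)) ''
            (TD.Tup F ψ K (σ : ℝ) γ ∩ {e : Fin K → N | ∃ i, e i ∈ Uo}ᶜ)}, ?_, ?_, ?_⟩
        · intro y hy
          obtain ⟨e, he, hey⟩ := h.lower hK σ.2 y.2
          rw [← hγ] at he
          have hV : ∃ i, e i ∈ Uo := by
            by_contra hcon
            exact hy ⟨e, ⟨he, hcon⟩, hey⟩
          obtain ⟨i, hi⟩ := hV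
          have hi' : e i ∈ Omega (Rt F ψ σ) := by
            rw [hO]
            exact he.1 i
          refine ⟨(c σ).symm ⟨e i, hi'⟩, (hUm ⟨e i, hi'⟩).1 hi, Subtype.ext ?_⟩
          rw [hg, hΦ, (c σ).apply_symm_apply]
          exact (h.tup_pi hK he i).trans hey
        · exact hP.isOpen_compl.preimage continuous_subtype_val
        · rintro ⟨e, ⟨he, heV⟩, hey⟩
          have hr := h.tup_range hK hγ0 (cnt _ (g x₀).2) he hey
          have hx : ((c σ x₀ : Omega (Rt F ψ σ)) : N) ∈ Set.range e := by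
            rw [hr]
            exact ⟨hmem x₀, by rw [hg, hΦ]⟩
          obtain ⟨i, hi⟩ := hx
          refine heV ⟨i, ?_⟩
          rw [hi, hUm, (c σ).symm_apply_apply]
          exact hx₀
      refine isLocalHomeomorph_iff_isCoveringMap.1
        (isLocalHomeomorph_iff_isOpenEmbedding_restrict.2 fun x => ?_)
      obtain ⟨U, hU⟩ : ∃ U : Set (Omega (F : N → N)), U =
          {ω | dist ((c σ ω : Omega (Rt F ψ σ)) : N) (c σ x) < δ / 2} := ⟨_, rfl⟩
      have hUo : IsOpen U := by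
        rw [hU]
        exact isOpen_lt ((continuous_subtype_val.comp (c σ).continuous).dist continuous_const)
          continuous_const
      refine ⟨U, hUo.mem_nhds ?_, ?_⟩
      · rw [hU]
        show dist ((c σ x : Omega (Rt F ψ σ)) : N) (c σ x) < δ / 2
        rw [dist_self]
        linarith
      · refine Topology.IsOpenEmbedding.of_continuous_injective_isOpenMap
          (hgc.comp continuous_subtype_val) ?_ (hopen.restrict hUo)
        rintro ⟨ω, hω⟩ ⟨ω', hω'⟩ hgg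
        have hgg' : g ω = g ω' := hgg
        rw [hU] at hω hω'
        have hω1 : dist ((c σ ω : Omega (Rt F ψ σ)) : N) (c σ x) < δ / 2 := hω
        have hω2 : dist ((c σ ω' : Omega (Rt F ψ σ)) : N) (c σ x) < δ / 2 := hω'
        have hd' : dist ((c σ ω' : Omega (Rt F ψ σ)) : N) (c σ ω) < δ := by
          have := dist_triangle_right ((c σ ω' : Omega (Rt F ψ σ)) : N) (c σ ω) (c σ x)
          linarith
        have e1 : π (c σ ω) = π (c σ ω') := by
          rw [← hΦ, ← hΦ, ← hg, ← hg, hgg']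
        have e2 := close _ _ (hmem ω) (hmem ω') e1 hd'
        exact Subtype.ext ((c σ).injective (Subtype.ext e2))
    · have h1 := count σ (by rwa [hσ]) y y.2
      rw [trc] at h1
      rw [← h1]
      congr 1
      ext ω
      show g ω = y ↔ Φ σ ω = y
      rw [← hg]
      exact Subtype.ext_iff

end

end Pool.Agent.V5helper25.TK
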