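import Pool.Agent.V5helper25.TK.Track

/-!
# MP_4a0782, circle extensions with constant number of periodic points: transfer and limits
-/

set_option autoImplicit false
set_option linter.unusedSectionVars false

open scoped Topology
open Filter Set Metric

universe u v

namespace Pool.Agent.V5helper25.TK

open Pool.Agent.TH80.OMS Pool.Agent.N813.CX Pool.Agent.N813.CX.CLOS

section

variable {N : Type u} [MetricSpace N] [CompactSpace N] {B : Type v} [MetricSpace B] {F : N ≃ₜ N}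
  {ψ : ℝ → N → N} {a : N → ℝ → ℝ} {π : N → B} {f : B → B} {θ₀ : ℝ} {K : ℕ} {S : N → ℝ → ℝ}

/-- limits of periodic points, with convergent parameters -/
def Cl (F : N → N) (ψ : ℝ → N → N) (s : ℝ) : Set N :=
  {x | ∀ ε : ℝ, 0 < ε → ∃ q s', |s' - s| < ε ∧ dist q x < ε ∧ q ∈ Per (Rt F ψ s')}

/-- points of the same fibre which do not coincide are not close -/
theorem SF.gap {T : ℝ → ℝ} {θ : ℝ} (h : SF T θ) (hl : ∀ t u, t ≤ u → T u - T t ≤ u - t) {s t₁ t₂ : ℝ}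
    (h1 : T t₁ = s) (h2 : T t₂ = s) (h12 : t₁ < t₂) : θ - |s| ≤ t₂ - t₁ := by
  by_contra hcon
  push Not at hcon
  refine h.inj h12 (h1.trans h2.symm) fun u hu => ?_
  have h3 := hl t₁ u hu.1
  have h4 := hl u t₂ hu.2
  have h5 := neg_abs_le s
  have h6 := le_abs_self s
  rw [abs_lt]
  constructor <;> linarith [hu.1, hu.2]

namespace TD

variable (h : TD F ψ a π f θ₀ K S)

include h

/-- **Transfer**: the parameter is uniformly continuous. -/
theorem transfer {θ₁ κ : ℝ} (h1 : θ₁ < θ₀) (hκ : 0 < κ) :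
    ∃ δ : ℝ, 0 < δ ∧ ∀ (p q : N) (s' : ℝ), q ∈ Per (Rt F ψ s') → |s'| ≤ θ₁ → π p ∈ Per f →
      dist p q < δ → |S p 0 - s'| ≤ κ ∧ |S p 0| < θ₀ ∧ p ∈ Per (Rt F ψ (S p 0)) := by
  obtain ⟨κ₁, hκ₁, k1, k2⟩ : ∃ κ₁ : ℝ, 0 < κ₁ ∧ 3 * κ₁ ≤ κ ∧ 4 * κ₁ ≤ θ₀ - θ₁ := by
    refine ⟨min (κ / 3) ((θ₀ - θ₁) / 4), ?_, ?_, ?_⟩
    · have : 0 < θ₀ - θ₁ := by linarith
      positivity
    · have := min_le_left (κ / 3) ((θ₀ - θ₁) / 4)
      linarith
    · have := min_le_right (κ / 3) ((θ₀ - θ₁) / 4)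
      linarith
  obtain ⟨M, δ, hδ, H1⟩ := h.recur (θ₂ := θ₁ + 2 * κ₁) (κ := κ₁) (by linarith) hκ₁
  obtain ⟨δa, hδa, H2⟩ := a_close h.top F.continuous hκ₁
  obtain ⟨δ₁, hδ₁, H3⟩ := near_iter F.continuous M (show 0 < min δ δa by positivity)
  obtain ⟨δ₂, hδ₂, H4⟩ := near_iter F.symm.continuous M hδ₁
  refine ⟨min δ₁ δ₂, by positivity, fun p q s' hq hs' hp hd => ?_⟩
  have hqb := per_base h.orb hq
  have hs : |s'| < θ₀ := by linarith
  have main : |S p 0 - s'| ≤ 3 * κ₁ := by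
    by_cases hu : UpP F ψ θ₀ q s'
    · obtain ⟨c, hc⟩ : ∃ c, c = F.symm^[M] p := ⟨_, rfl⟩
      obtain ⟨c', hc'⟩ : ∃ c', c' = F.symm^[M] q := ⟨_, rfl⟩
      have hinv : Function.LeftInverse F^[M] F.symm^[M] :=
        Function.LeftInverse.iterate F.apply_symm_apply M
      have ec : F^[M] c = p := by rw [hc]; exact hinv p
      have ec' : F^[M] c' = q := by rw [hc']; exact hinv q
      have hfi := f_inj h.top h.orb
      have hcP : π c ∈ Per f := by
        refine per_iter_back hfi (l := M) ?_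
        rw [← semi_iter h.orb, ec]
        exact hp
      have hcP' : π c' ∈ Per f := by
        refine per_iter_back hfi (l := M) ?_
        rw [← semi_iter h.orb, ec']
        exact hqb
      obtain ⟨w, hw⟩ := (Rt_surj h.top s').iterate M q
      have hwP : w ∈ Per (Rt F ψ s') := per_iter_back (Rt_inj h.top s') (l := M) (by rwa [hw])
      have hwc : π c' = π w := by
        refine hfi.iterate M ?_
        rw [← semi_iter h.orb, ec', ← semi_iter (orbR h.orb s'), hw]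
      obtain ⟨x, rfl⟩ := (h.orb.eq _ _).1 hwc
      have hx : S c' x = s' := (h.per c' hcP' s' hs x).1 hwP
      have hux : UpS (S c') x := by
        have h5 := h.up_per hs hwP M (by rwa [hw])
        have h6 := h.up_iff hcP' (x := x) (by rw [hx]; exact hs)
        rw [hx] at h6
        exact h6.1 h5
      have hcl : ∀ j ≤ M, dist (F^[j] c) (F^[j] c') < min δ δa := by
        intro j hj
        refine H3 c c' ?_ j hj
        rw [hc, hc']
        exact H4 p q (hd.trans_le (min_le_right _ _)) M le_rfl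
      obtain ⟨l, hl, hE⟩ := H1 c c' hcP hcP' fun j hj => (hcl j hj).trans_le (min_le_left _ _)
      have h7 := h.fwd hcP hcP' hκ₁ (by linarith) hx hux l (M - l)
        (fun t ht => hE t (by linarith)) (fun i hi => H2 _ _
          ((hcl i (by omega)).trans_le (min_le_right _ _)))
      rw [Nat.add_sub_cancel' hl, ec] at h7
      have h8 : ψ (posn F a c' s' x M) q = q := by
        have h9 := posn_iter h.top c' s' x M
        rw [hw, ec'] at h9
        exact h9.symm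
      obtain ⟨j, hj⟩ := (h.top.free _ _).1 h8
      rw [hj] at h7
      have h9 := per_int (h.sf p hp).per 0 j
      rw [zero_add] at h9
      rwa [h9] at h7
    · have h0 := h.at0 hs hq
      have hux : ¬ UpS (S q) 0 := by
        have h6 := h.up_iff hqb (x := 0) (by rw [h0]; exact hs)
        rw [h0, h.top.zero] at h6
        exact fun hh => hu (h6.2 hh)
      have hcl : ∀ j ≤ M, dist (F^[j] p) (F^[j] q) < min δ δa :=
        H3 p q (hd.trans_le (min_le_left _ _))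
      obtain ⟨l, hl, hE⟩ := H1 p q hp hqb fun j hj => (hcl j hj).trans_le (min_le_left _ _)
      exact h.bwd hp hqb hκ₁ (by linarith) h0 hux l (fun t ht => hE t (by linarith))
        (fun i hi => H2 _ _ ((hcl i (by omega)).trans_le (min_le_right _ _)))
  have hb : |S p 0| < θ₀ := by
    have := abs_sub_abs_le_abs_sub (S p 0) s'
    linarith
  exact ⟨by linarith, hb, h.of0 hp hb⟩

/-- the limit sets are disjoint -/
theorem cl_disj {s₁ s₂ : ℝ} (h1 : |s₁| < θ₀) (h2 : |s₂| < θ₀) {x : N} (hx1 : x ∈ Cl F ψ s₁)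
    (hx2 : x ∈ Cl F ψ s₂) : s₁ = s₂ := by
  by_contra hne
  have hpos : 0 < |s₁ - s₂| := abs_pos.2 (sub_ne_zero.2 hne)
  obtain ⟨θ₁, t1, t2⟩ := exists_between (max_lt h1 h2)
  obtain ⟨δ, hδ, H⟩ := h.transfer (θ₁ := θ₁) (κ := |s₁ - s₂| / 4) t2 (by linarith)
  obtain ⟨ε, hε, e1, e2, e3⟩ : ∃ ε : ℝ, 0 < ε ∧ ε ≤ |s₁ - s₂| / 4 ∧ 2 * ε ≤ δ ∧
      ε ≤ θ₁ - max |s₁| |s₂| := by
    refine ⟨min (|s₁ - s₂| / 4) (min (δ / 2) (θ₁ - max |s₁| |s₂|)), ?_, min_le_left _ _, ?_,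
      (min_le_right _ _).trans (min_le_right _ _)⟩
    · have : 0 < θ₁ - max |s₁| |s₂| := by linarith
      positivity
    · have := (min_le_right (|s₁ - s₂| / 4) (min (δ / 2) (θ₁ - max |s₁| |s₂|))).trans
        (min_le_left _ _)
      linarith
  obtain ⟨q₁, s₁', a1, a2, a3⟩ := hx1 ε hε
  obtain ⟨q₂, s₂', b1, b2, b3⟩ := hx2 ε hε
  have m1 := le_max_left |s₁| |s₂|
  have m2 := le_max_right |s₁| |s₂|
  have c1 : |s₁'| < θ₀ := by
    have := abs_sub_abs_le_abs_sub s₁' s₁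
    linarith
  have c2 : |s₂'| ≤ θ₁ := by
    have := abs_sub_abs_le_abs_sub s₂' s₂
    linarith
  have h3 := (H q₁ q₂ s₂' b3 c2 (per_base h.orb a3) (by
    have := dist_triangle_right q₁ q₂ x
    linarith)).1
  rw [h.at0 c1 a3] at h3
  obtain ⟨x1, x2⟩ := abs_lt.1 a1
  obtain ⟨y1, y2⟩ := abs_lt.1 b1
  obtain ⟨z1, z2⟩ := abs_le.1 h3
  have h4 : |s₁ - s₂| ≤ 3 * (|s₁ - s₂| / 4) := by
    rw [abs_le]
    constructor <;> linarith
  linarith

/-- **Upper bound.** -/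
theorem upper {s : ℝ} (hs : |s| < θ₀) (v₀ : N) (hbad : ∀ r : ℚ, ψ r v₀ ∉ Cl F ψ s)
    (e : Fin (K + 1) → N) (he : Function.Injective e)
    (hcl : ∀ i, e i ∈ closure (Per (Rt F ψ s))) (hπ : ∀ i, π (e i) = π v₀) : False := by
  have hτ : ∀ i, ∃ τ, τ ∈ Ico (0 : ℝ) 1 ∧ e i = ψ τ (e 0) := by
    intro i
    obtain ⟨t, ht⟩ := (h.orb.eq (e 0) (e i)).1 (by rw [hπ, hπ])
    exact ⟨Int.fract t, ⟨Int.fract_nonneg t, Int.fract_lt_one t⟩, by rw [psi_fract h.top, ht]⟩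
  choose τ hτ1 hτ2 using hτ
  -- the statement for one scale
  have scale : ∀ n : ℕ, ∃ o : Fin (K + 1) × Fin (K + 1) × ↥(Finset.Icc (-1 : ℤ) 1),
      o.1 ≠ o.2.1 ∧ ∃ v ∈ Per (Rt F ψ s), dist v (e 0) < 1 / ((n : ℝ) + 1) ∧
        ∀ u ∈ uIcc (τ o.1) (τ o.2.1 + ((o.2.2 : ℤ) : ℝ)), |S v u - s| < 1 / ((n : ℝ) + 1) := by
    intro n
    have hn : (0 : ℝ) < 1 / ((n : ℝ) + 1) := Nat.one_div_pos_of_nat
    obtain ⟨κ, hκ, k1, k2⟩ : ∃ κ : ℝ, 0 < κ ∧ κ ≤ 1 / ((n : ℝ) + 1) ∧ |s| + κ < θ₀ := by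
      refine ⟨min (1 / ((n : ℝ) + 1)) ((θ₀ - |s|) / 2), ?_, min_le_left _ _, ?_⟩
      · have : 0 < θ₀ - |s| := by linarith
        positivity
      · have := min_le_right (1 / ((n : ℝ) + 1)) ((θ₀ - |s|) / 2)
        linarith
    obtain ⟨δ, hδ, H⟩ := h.transfer (θ₁ := |s|) (κ := κ / 2) hs (by linarith)
    obtain ⟨δ', hδ', H'⟩ := psi_unif h.top (show 0 < δ / 2 by linarith)
    obtain ⟨v, hv, hvd⟩ := Metric.mem_closure_iff.1 (hcl 0) (min δ' (1 / ((n : ℝ) + 1)))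
      (by positivity)
    rw [dist_comm] at hvd
    have hvb := per_base h.orb hv
    have hval : ∀ i, |S v (τ i) - s| < κ := by
      intro i
      obtain ⟨q, hq, hqd⟩ := Metric.mem_closure_iff.1 (hcl i) (δ / 2) (by linarith)
      have h3 : dist (ψ (τ i) v) (e i) < δ / 2 := by
        rw [hτ2 i]
        exact H' _ _ _ (hvd.trans_le (min_le_left _ _))
      have h4 := H (ψ (τ i) v) q s hq le_rfl (by rw [pi_psi h.orb]; exact hvb) (by
        have := dist_triangle (ψ (τ i) v) (e i) q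
        linarith)
      have h5 := (h.per v hvb _ h4.2.1 (τ i)).1 h4.2.2
      rw [h5]
      linarith [h4.1]
    obtain ⟨i, j, hij, k, hk, hall⟩ := (h.sf v hvb).pig k2 (h.card v hvb s hs) hκ τ hτ1 hval
    exact ⟨(i, j, ⟨k, Finset.mem_Icc.2 (abs_le.1 hk)⟩), hij, v, hv,
      hvd.trans_le (min_le_right _ _), fun u hu => (hall u hu).trans_le k1⟩
  -- the pigeonhole principle
  have hpig : ∃ o : Fin (K + 1) × Fin (K + 1) × ↥(Finset.Icc (-1 : ℤ) 1), ∀ n : ℕ,
      o.1 ≠ o.2.1 ∧ ∃ v ∈ Per (Rt F ψ s), dist v (e 0) < 1 / ((n : ℝ) + 1) ∧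
        ∀ u ∈ uIcc (τ o.1) (τ o.2.1 + ((o.2.2 : ℤ) : ℝ)), |S v u - s| < 1 / ((n : ℝ) + 1) := by
    by_contra hcon
    push Not at hcon
    choose ν hν using hcon
    obtain ⟨M, hM⟩ := Finite.exists_le ν
    obtain ⟨o, ho, v, hv, hvd, hvu⟩ := scale M
    have hle : 1 / ((M : ℝ) + 1) ≤ 1 / ((ν o : ℝ) + 1) := by
      have : (ν o : ℝ) ≤ M := by exact_mod_cast hM o
      exact one_div_le_one_div_of_le (by positivity) (by linarith)
    obtain ⟨u, hu, hu'⟩ := hν o ho v hv (hvd.trans_le hle)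
    exact absurd (hvu u hu) (not_lt.2 (hle.trans hu'))
  obtain ⟨⟨i, j, k⟩, ho⟩ := hpig
  have hij : i ≠ j := (ho 0).1
  have hne : τ i ≠ τ j + ((k : ℤ) : ℝ) := by
    intro heq
    apply hij
    apply he
    rw [hτ2 i, hτ2 j]
    exact (psi_eq h.top _ _ _).2 ⟨k, heq⟩
  have hCl : ∀ u ∈ uIcc (τ i) (τ j + ((k : ℤ) : ℝ)), ψ u (e 0) ∈ Cl F ψ s := by
    intro u hu ε hε
    obtain ⟨δ, hδ, H⟩ := psi_unif h.top hε
    obtain ⟨n, hn⟩ := exists_nat_one_div_lt
      (show 0 < min ε (min δ (θ₀ - |s|)) from lt_min hε (lt_min hδ (by linarith)))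
    obtain ⟨-, v, hv, hvd, hvu⟩ := ho n
    have h3 := hvu u hu
    have hvb := per_base h.orb hv
    have l1 : 1 / ((n : ℝ) + 1) < ε := hn.trans_le (min_le_left _ _)
    have l2 : 1 / ((n : ℝ) + 1) < δ :=
      hn.trans_le ((min_le_right _ _).trans (min_le_left _ _))
    have l3 : 1 / ((n : ℝ) + 1) < θ₀ - |s| :=
      hn.trans_le ((min_le_right _ _).trans (min_le_right _ _))
    have h4 : |S v u| < θ₀ := by
      have := abs_sub_abs_le_abs_sub (S v u) s
      linarith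
    exact ⟨ψ u v, S v u, h3.trans l1, H u _ _ (hvd.trans l2), (h.per v hvb _ h4 u).2 rfl⟩
  obtain ⟨t₀, ht₀⟩ := (h.orb.eq v₀ (e 0)).1 (hπ 0).symm
  have hlt : min (τ i) (τ j + ((k : ℤ) : ℝ)) < max (τ i) (τ j + ((k : ℤ) : ℝ)) := by
    rcases lt_or_gt_of_ne hne with h3 | h3
    · rw [min_eq_left h3.le, max_eq_right h3.le]
      exact h3
    · rw [min_eq_right h3.le, max_eq_left h3.le]
      exact h3
  obtain ⟨r, hr1, hr2⟩ := exists_rat_btwn
    (show min (τ i) (τ j + ((k : ℤ) : ℝ)) + t₀ < max (τ i) (τ j + ((k : ℤ) : ℝ)) + t₀ by linarith)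
  refine hbad r ?_
  have h5 := hCl ((r : ℝ) - t₀) ⟨by linarith, by linarith⟩
  rwa [ht₀, ← h.top.add, sub_add_cancel] at h5

/-- the periodic points over a periodic point of the base -/
theorem over_per {s : ℝ} (hs : |s| < θ₀) {v : N} (hv : π v ∈ Per f) :
    ∃ e : Fin K → N, (∀ i, e i ∈ Per (Rt F ψ s)) ∧ (∀ i, π (e i) = π v) ∧
      ∀ i j, i ≠ j → ∃ t ∈ Icc (θ₀ - |s|) (1 - (θ₀ - |s|)), e j = ψ t (e i) := by
  have hfin : (Z (S v) s).Finite := (h.sf v hv).finite hs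
  have hcard : hfin.toFinset.card = K := by
    rw [← Set.ncard_eq_toFinset_card _ hfin]
    exact h.card v hv s hs
  obtain ⟨z, hz⟩ : ∃ z : Fin K → ℝ, z = fun i => hfin.toFinset.orderEmbOfFin hcard i := ⟨_, rfl⟩
  have hzinj : ∀ i j, i ≠ j → z i ≠ z j := by
    intro i j hij
    rw [hz]
    exact fun hh => hij ((hfin.toFinset.orderEmbOfFin hcard).injective hh)
  have hzZ : ∀ i, z i ∈ Z (S v) s := by
    intro i
    rw [hz]
    exact hfin.mem_toFinset.1 (Finset.orderEmbOfFin_mem hfin.toFinset hcard i)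
  refine ⟨fun i => ψ (z i) v, fun i => (h.per v hv s hs _).2 (hzZ i).2,
    fun i => pi_psi h.orb _ _, fun i j hij => ?_⟩
  have hi := hzZ i
  have hj := hzZ j
  have hper : ∀ t, S v (t + 1) = S v t := (h.sf v hv).per
  rcases lt_or_gt_of_ne (hzinj i j hij) with h3 | h3
  · refine ⟨z j - z i, ⟨?_, ?_⟩, ?_⟩
    · exact (h.sf v hv).gap (h.lip v hv) hi.2 hj.2 h3
    · have h4 := (h.sf v hv).gap (h.lip v hv) (t₁ := z j) (t₂ := z i + 1) hj.2
        (by rw [hper]; exact hi.2) (by linarith [hi.1.1, hj.1.2])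
      linarith
    · show ψ (z j) v = ψ (z j - z i) (ψ (z i) v)
      rw [← h.top.add, sub_add_cancel]
  · refine ⟨z j - z i + 1, ⟨?_, ?_⟩, ?_⟩
    · have h4 := (h.sf v hv).gap (h.lip v hv) (t₁ := z i) (t₂ := z j + 1) hi.2
        (by rw [hper]; exact hj.2) (by linarith [hj.1.1, hi.1.2])
      linarith
    · have h4 := (h.sf v hv).gap (h.lip v hv) hj.2 hi.2 h3
      linarith
    · show ψ (z j) v = ψ (z j - z i + 1) (ψ (z i) v)
      rw [← h.top.add]
      exact (psi_eq h.top _ _ _).2 ⟨-1, by push_cast; ring⟩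

/-- the tuples of points of a fibre with gaps -/
def Tup (F : N → N) (ψ : ℝ → N → N) (K : ℕ) (s γ : ℝ) : Set (Fin K → N) :=
  {e | (∀ i, e i ∈ closure (Per (Rt F ψ s))) ∧
      ∀ i j, i ≠ j → ∃ t ∈ Icc γ (1 - γ), e j = ψ t (e i)}

theorem tup_closed (s γ : ℝ) : IsClosed (Tup F ψ K s γ) := by
  have hcl : IsClosed {q : N × N | ∃ t ∈ Icc γ (1 - γ), q.2 = ψ t q.1} := by
    have h1 : {q : N × N | ∃ t ∈ Icc γ (1 - γ), q.2 = ψ t q.1} =
        (fun q : ℝ × N => (q.2, ψ q.1 q.2)) ''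
          (Icc γ (1 - γ) ×ˢ (univ : Set N)) := by
      ext ⟨x, x'⟩
      constructor
      · rintro ⟨t, ht, hx⟩
        exact ⟨(t, x), ⟨ht, mem_univ _⟩, by
          have hx' : x' = ψ t x := hx
          show (x, ψ t x) = (x, x')
          rw [hx']⟩
      · rintro ⟨⟨t, y⟩, ⟨ht, -⟩, hq⟩
        obtain ⟨rfl, rfl⟩ := Prod.mk.inj hq
        exact ⟨t, ht, rfl⟩
    rw [h1]
    exact ((isCompact_Icc.prod isCompact_univ).image (continuous_snd.prodMk h.top.cont)).isClosed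
  have h1 : Tup F ψ K s γ = (⋂ i, (fun e : Fin K → N => e i) ⁻¹' closure (Per (Rt F ψ s))) ∩
      ⋂ i, ⋂ j, ⋂ (_ : i ≠ j), (fun e : Fin K → N => (e i, e j)) ⁻¹'
        {q : N × N | ∃ t ∈ Icc γ (1 - γ), q.2 = ψ t q.1} := by
    unfold Tup
    ext e
    simp only [mem_ofPred_eq, mem_inter_iff, mem_iInter, mem_preimage]
  rw [h1]
  refine (isClosed_iInter fun i => isClosed_closure.preimage (continuous_apply i)).inter
    (isClosed_iInter fun i => isClosed_iInter fun j => isClosed_iInter fun _ => ?_)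
  exact hcl.preimage ((continuous_apply i).prodMk (continuous_apply j))

theorem tup_inj {s γ : ℝ} (hγ : 0 < γ) {e : Fin K → N} (he : e ∈ Tup F ψ K s γ) :
    Function.Injective e := by
  intro i j hij
  by_contra hne
  obtain ⟨t, ht, ht'⟩ := he.2 i j hne
  rw [← hij] at ht'
  obtain ⟨k, hk⟩ := (h.top.free _ _).1 ht'.symm
  have l1 : (0 : ℝ) < k := by rw [← hk]; linarith [ht.1]
  have l2 : (k : ℝ) < 1 := by rw [← hk]; linarith [ht.2]
  have m1 : 0 < k := by exact_mod_cast l1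
  have m2 : k < 1 := by exact_mod_cast l2
  omega

theorem tup_pi (hK : 0 < K) {s γ : ℝ} {e : Fin K → N} (he : e ∈ Tup F ψ K s γ) (i : Fin K) :
    π (e i) = π (e ⟨0, hK⟩) := by
  by_cases hi : i = ⟨0, hK⟩
  · rw [hi]
  · obtain ⟨t, -, ht⟩ := he.2 ⟨0, hK⟩ i (Ne.symm hi)
    rw [ht, pi_psi h.orb]

/-- **Lower bound.** -/
theorem lower (hK : 0 < K) {s : ℝ} (hs : |s| < θ₀) {y : B} (hy : y ∈ closure (Per f)) :
    ∃ e ∈ Tup F ψ K s (θ₀ - |s|), π (e ⟨0, hK⟩) = y := by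
  have him : IsClosed ((fun e : Fin K → N => π (e ⟨0, hK⟩)) '' Tup F ψ K s (θ₀ - |s|)) :=
    ((h.tup_closed s (θ₀ - |s|)).isCompact.image
      (h.orb.cont.comp (continuous_apply _))).isClosed
  have hsub : Per f ⊆ (fun e : Fin K → N => π (e ⟨0, hK⟩)) '' Tup F ψ K s (θ₀ - |s|) := by
    intro x hx
    obtain ⟨v, rfl⟩ := h.orb.surj x
    obtain ⟨e, e1, e2, e3⟩ := h.over_per hs hx
    exact ⟨e, ⟨fun i => subset_closure (e1 i), e3⟩, e2 _⟩
  exact closure_minimal hsub him hy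

/-- **The number of the points.** -/
theorem exact (hK : 0 < K) {s : ℝ} (hs : |s| < θ₀) {v₀ : N} (hy : π v₀ ∈ closure (Per f))
    (hbad : ∀ r : ℚ, ψ r v₀ ∉ Cl F ψ s) :
    {x | x ∈ closure (Per (Rt F ψ s)) ∧ π x = π v₀}.ncard = K := by
  obtain ⟨e, he, hey⟩ := h.lower hK hs hy
  have e2 : ∀ i, π (e i) = π v₀ := fun i => (h.tup_pi hK he i).trans hey
  have hinj := h.tup_inj (by linarith) he
  have hset : {x | x ∈ closure (Per (Rt F ψ s)) ∧ π x = π v₀} = Set.range e := by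
    ext x
    constructor
    · rintro ⟨hx1, hx2⟩
      by_contra hx
      refine h.upper hs v₀ hbad (Fin.cons x e) ?_ ?_ ?_
      · exact Fin.cons_injective_iff.2 ⟨hx, hinj⟩
      · intro i
        refine Fin.cases ?_ (fun i => ?_) i
        · simpa using hx1
        · simpa using he.1 i
      · intro i
        refine Fin.cases ?_ (fun i => ?_) i
        · simpa using hx2
        · simpa using e2 i
    · rintro ⟨i, rfl⟩
      exact ⟨he.1 i, e2 i⟩
  rw [hset, ← Set.image_univ, Set.ncard_image_of_injective _ hinj, Set.ncard_univ]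
  simp

/-- tuples are enumerations of the fibres -/
theorem tup_range (hK : 0 < K) {s γ : ℝ} (hγ : 0 < γ) {y : B}
    (hcard : {x | x ∈ closure (Per (Rt F ψ s)) ∧ π x = y}.ncard = K) {e : Fin K → N}
    (he : e ∈ Tup F ψ K s γ) (hey : π (e ⟨0, hK⟩) = y) :
    Set.range e = {x | x ∈ closure (Per (Rt F ψ s)) ∧ π x = y} := by
  have hinj := h.tup_inj hγ he
  refine Set.eq_of_subset_of_ncard_le ?_ ?_ (Set.finite_of_ncard_pos (by rw [hcard]; exact hK))
  · rintro _ ⟨i, rfl⟩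
    exact ⟨he.1 i, (h.tup_pi hK he i).trans hey⟩
  · rw [hcard, ← Set.image_univ, Set.ncard_image_of_injective _ hinj, Set.ncard_univ]
    simp

/-- different points of a fibre are not close -/
theorem exact_gap (hK : 0 < K) {s : ℝ} (hs : |s| < θ₀) {y : B} (hy : y ∈ closure (Per f))
    (hcard : {x | x ∈ closure (Per (Rt F ψ s)) ∧ π x = y}.ncard = K) {x x' : N}
    (hx : x ∈ closure (Per (Rt F ψ s)) ∧ π x = y)
    (hx' : x' ∈ closure (Per (Rt F ψ s)) ∧ π x' = y) (hne : x ≠ x') :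
    ∃ t ∈ Icc (θ₀ - |s|) (1 - (θ₀ - |s|)), x' = ψ t x := by
  obtain ⟨e, he, hey⟩ := h.lower hK hs hy
  have hset := h.tup_range hK (by linarith) hcard he hey
  have hxr : x ∈ Set.range e := by rw [hset]; exact hx
  have hxr' : x' ∈ Set.range e := by rw [hset]; exact hx'
  obtain ⟨i, rfl⟩ := hxr
  obtain ⟨j, rfl⟩ := hxr'
  exact he.2 i j fun hij => hne (by rw [hij])

end TD

end

end Pool.Agent.V5helper25.TK
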