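import Pool.Agent.V5helper25.TK.Fin

/-!
# MP_4a0782, circle extensions with constant number of periodic points: the smooth theorem
-/

set_option autoImplicit false

open scoped Manifold ContDiff Topology
open Filter Set Metric

universe u v

namespace Pool.Agent.V5helper25.TK

open Pool.Agent.H718R2.G Pool.Agent.W564.SC Pool.Agent.TH80.OMS Pool.Agent.TH290.CL
  Pool.Agent.N813.OF Pool.Agent.N813.CX Pool.Agent.N813.CX.CLOS

/-- the closing property gives the density of the periodic points -/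
theorem om_base {B : Type v} [MetricSpace B] (f : B → B) (hf : ClosingProp f) :
    closure (Per f) = Omega f := by
  apply subset_antisymm
  · exact closure_minimal (CONJ.per_sub _) (om_closed _)
  · intro x hx
    rw [Metric.mem_closure_iff]
    intro ε hε
    obtain ⟨η, hη, hcl⟩ := hf (ε / 2) (by linarith)
    obtain ⟨k, hk, y, hy, hky⟩ := hx (ball x (min (ε / 2) (η / 2))) isOpen_ball
      (mem_ball_self (by positivity))
    rw [mem_ball] at hy hky
    have l1 := min_le_left (ε / 2) (η / 2)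
    have l2 := min_le_right (ε / 2) (η / 2)
    obtain ⟨x', hx', hs⟩ := hcl y k hk (by
      have := dist_triangle_right (f^[k] y) y x
      linarith)
    refine ⟨x', ⟨k, hk, hx'⟩, ?_⟩
    have h0 : dist x' y < ε / 2 := hs 0 (Nat.zero_le _)
    have := dist_triangle_right x x' y
    rw [dist_comm y x] at *
    rw [dist_comm]
    rw [dist_comm] at this
    linarith [dist_comm x x']

section

variable {n : ℕ} {N : Type u} [TopologicalSpace N] [T2Space N] [CompactSpace N]
  [ChartedSpace (V n) N] [IsManifold (𝓡 n) ∞ N] {r : ℕ∞}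

/-- **The smooth theorem.** -/
theorem main (hr : 1 ≤ r) (F : DiffM n N r) (hF : OmegaStable n N r F) (ψ : ℝ → N → N)
    (h : CircleExt n N F ψ) (B : Type v) [MetricSpace B] (π : N → B) (f : B → B)
    (hπ : OrbitMap F ψ π f) (hf : ClosingProp f) (he : ExpMap f) (K : ℕ) (hK : 0 < K)
    (hcount : ∀ y ∈ Per f, {v | v ∈ Per F ∧ π v = y}.ncard = K) :
    (∃ W : Set (N × N), IsOpen W ∧ (∀ x, (x, x) ∈ W) ∧ ∀ x y : ℤ → N,
      (∀ i, x i ∈ Omega F) → (∀ i, y i ∈ Omega F) → (∀ i, F (x i) = x (i + 1)) →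
      (∀ i, F (y i) = y (i + 1)) → (∀ i, (x i, y i) ∈ W) → x = y) ∧
    (∃ g : Omega F → Omega f, IsCoveringMap g ∧
      (∀ x y : Omega F, F x = y → (g y : B) = f (g x)) ∧ ∀ y, {x | g x = y}.ncard = K) ∧
    ∃ θ : ℝ, 0 < θ ∧ ∃ E : Set ℝ, E.Countable ∧ ∀ s, |s| < θ → s ∉ E → ∀ y ∈ Omega f,
      {x | x ∈ Omega (fun z => ψ s (F z)) ∧ π x = y}.ncard = K := by
  haveI : SecondCountableTopology N := ChartedSpace.secondCountable_of_sigmaCompact (V n) N
  letI : MetricSpace N := TopologicalSpace.metrizableSpaceMetric N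
  obtain ⟨a, H, θ₀, hH⟩ := exists_rotFam hr F hF ψ h
  have hHe : ∀ s, (H s : N → N) = Rt F ψ s := fun s => funext fun y => hH.eq s y
  have hex : ∀ v : N, ∃ S : ℝ → ℝ, π v ∈ Per f → SF S θ₀ ∧
      (∀ t u, t ≤ u → S u - S t ≤ u - t) ∧
      ∀ s, |s| < θ₀ → ∀ t, (ψ t v ∈ Per (Rt F ψ s) ↔ S t = s) := by
    intro v
    by_cases hv : π v ∈ Per f
    · obtain ⟨S, h1, h2, h3⟩ := exS hr hH hπ v hv
      refine ⟨S, fun _ => ⟨h1, h2, fun s hs t => ?_⟩⟩
      rw [← hHe]
      exact h3 s hs t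
    · exact ⟨fun _ => 0, fun hh => absurd hh hv⟩
  choose S hS using hex
  have hR0 : Rt (F : N → N) ψ 0 = F := funext fun y => hH.top.zero (F y)
  have hTD : TD F.toHomeomorph ψ a π f θ₀ K S := by
    refine ⟨hH.top, hπ, hf, hH.pos, fun v hv => (hS v hv).1, fun v hv => (hS v hv).2.2,
      fun v hv s hs => ?_, fun v hv => (hS v hv).2.1⟩
    have h0 : |(0 : ℝ)| < θ₀ := by rw [abs_zero]; exact hH.pos
    rw [(hS v hv).1.card_eq hs h0, ← hcount (π v) hv]
    have himg : {w | w ∈ Per F ∧ π w = π v} = (fun t => ψ t v) '' Z (S v) 0 := by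
      ext w
      constructor
      · rintro ⟨hw1, hw2⟩
        obtain ⟨t, rfl⟩ := (hπ.eq _ _).1 hw2.symm
        have hw3 : ψ (Int.fract t) v ∈ Per (Rt F ψ 0) := by
          rw [hR0, psi_fract hH.top]
          exact hw1
        exact ⟨Int.fract t, ⟨⟨Int.fract_nonneg t, Int.fract_lt_one t⟩,
          ((hS v hv).2.2 0 h0 _).1 hw3⟩, psi_fract hH.top t v⟩
      · rintro ⟨t, ht, rfl⟩
        have hw3 := ((hS v hv).2.2 0 h0 t).2 ht.2
        rw [hR0] at hw3
        exact ⟨hw3, ((hπ.eq v (ψ t v)).2 ⟨t, rfl⟩).symm⟩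
    rw [himg, Set.InjOn.ncard_image]
    intro t ht t' ht' htt
    obtain ⟨j, hj⟩ := (psi_eq hH.top _ _ _).1 htt
    have l1 : (j : ℝ) < 1 := by linarith [ht.1.2, ht'.1.1]
    have l2 : (-1 : ℝ) < j := by linarith [ht.1.1, ht'.1.2]
    have m1 : j < 1 := by exact_mod_cast l1
    have m2 : -1 < j := by exact_mod_cast l2
    have hj0 : j = 0 := by omega
    rw [hj, hj0]
    simp
  have hconj : ∀ s, |s| < θ₀ → OmegaConj F.toHomeomorph (Rt F.toHomeomorph ψ s) := by
    intro s hs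
    have := hH.conj s hs
    rwa [hHe] at this
  have hd : Omega (F.toHomeomorph : N → N) ⊆ closure (Per F.toHomeomorph) :=
    dense hr hH B π f hπ hf
  have key := final hTD hK he hconj hd
  rw [om_base f hf] at key
  obtain ⟨k1, k2, E, hE, k3⟩ := key
  exact ⟨k1, k2, θ₀, hH.pos, E, hE, k3⟩

end

end Pool.Agent.V5helper25.TK
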