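import Mathlib

/-!
# MP_4a0782, circle extensions with constant number of periodic points: functions on the circle

`SF S θ`: `S` is a continuous function on the circle `ℝ / ℤ` without local extrema at the levels in
`(-θ, θ)`, and `0` is a value.
-/

set_option autoImplicit false

open Set Filter Topology

namespace Pool.Agent.V5helper25.TK

/-- A continuous function of period one, with the value `0`, without local extrema at the levels in
`(-θ, θ)`. -/
structure SF (S : ℝ → ℝ) (θ : ℝ) : Prop where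
  cont : Continuous S
  per : ∀ t, S (t + 1) = S t
  ext : ∀ t, |S t| < θ → ¬ IsLocalExtr S t
  zero : ∃ t, S t = 0

/-- the places of the value `s` -/
def Z (S : ℝ → ℝ) (s : ℝ) : Set ℝ := {t | t ∈ Ico (0 : ℝ) 1 ∧ S t = s}

theorem per_int {S : ℝ → ℝ} (h : ∀ t, S (t + 1) = S t) (t : ℝ) (k : ℤ) : S (t + k) = S t := by
  have h1 := (show Function.Periodic S 1 from h).int_mul k t
  simpa using h1

theorem per_fract {S : ℝ → ℝ} (h : ∀ t, S (t + 1) = S t) (t : ℝ) : S (Int.fract t) = S t := by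
  have h1 := per_int h t (-⌊t⌋)
  rw [← h1]
  congr 1
  unfold Int.fract
  push_cast
  ring

variable {S T : ℝ → ℝ} {θ : ℝ}

theorem SF.inj (h : SF S θ) {t₁ t₂ : ℝ} (h12 : t₁ < t₂) (he : S t₁ = S t₂)
    (hb : ∀ u ∈ Icc t₁ t₂, |S u| < θ) : False := by
  obtain ⟨c, hc, hext⟩ := exists_isLocalExtr_Ioo h12 h.cont.continuousOn he
  exact h.ext c (hb c (Ioo_subset_Icc_self hc)) hext

theorem SF.inj' (h : SF S θ) {t₁ t₂ : ℝ} (he : S t₁ = S t₂)
    (hb : ∀ u ∈ uIcc t₁ t₂, |S u| < θ) : t₁ = t₂ := by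
  by_contra hne
  rcases lt_or_gt_of_ne hne with h1 | h1
  · exact h.inj h1 he (by rwa [uIcc_of_le h1.le] at hb)
  · exact h.inj h1 he.symm (by rwa [uIcc_of_ge h1.le] at hb)

theorem SF.neg (h : SF S θ) : SF (fun t => -S t) θ := by
  refine ⟨h.cont.neg, fun t => by rw [h.per], fun t ht he => ?_, ?_⟩
  · rw [abs_neg] at ht
    refine h.ext t ht ?_
    have h1 := he.neg
    simpa using h1
  · obtain ⟨t, ht⟩ := h.zero
    exact ⟨t, by rw [ht, neg_zero]⟩

theorem SF.refl (h : SF S θ) : SF (fun t => S (-t)) θ := by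
  refine ⟨h.cont.comp continuous_neg, fun t => ?_, fun t ht he => ?_, ?_⟩
  · have h1 := h.per (-(t + 1))
    show S (-(t + 1)) = S (-t)
    rw [← h1]
    congr 1
    ring
  · refine h.ext (-t) ht ?_
    have hc : ContinuousAt (fun u : ℝ => -u) (-t) := continuous_neg.continuousAt
    have h1 : IsLocalExtr (fun u => S (-u)) ((fun u : ℝ => -u) (-t)) := by
      simpa using he
    have h2 := h1.comp_continuous hc
    have h3 : ((fun u => S (-u)) ∘ fun u : ℝ => -u) = S := by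
      funext u
      simp
    rwa [h3] at h2
  · obtain ⟨t, ht⟩ := h.zero
    exact ⟨-t, by rw [neg_neg, ht]⟩

theorem SF.high (h : SF S θ) : ∃ u, θ ≤ S u := by
  by_contra hcon
  push Not at hcon
  obtain ⟨u, hu, hmax⟩ := isCompact_Icc.exists_isMaxOn (nonempty_Icc.2 (zero_le_one' ℝ))
    h.cont.continuousOn
  have hall : ∀ t, S t ≤ S u := by
    intro t
    rw [← per_fract h.per t]
    exact hmax ⟨Int.fract_nonneg t, (Int.fract_lt_one t).le⟩
  obtain ⟨t₀, ht₀⟩ := h.zero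
  have h0 : 0 ≤ S u := by rw [← ht₀]; exact hall t₀
  refine h.ext u (by rw [abs_of_nonneg h0]; exact hcon u) (Or.inr ?_)
  exact Eventually.of_forall hall

theorem SF.high_in (h : SF S θ) (x : ℝ) : ∃ u, x < u ∧ u ≤ x + 1 ∧ θ ≤ S u := by
  obtain ⟨u, hu⟩ := h.high
  refine ⟨u + ((⌊x - u⌋ + 1 : ℤ) : ℝ), ?_, ?_, ?_⟩
  · have := Int.lt_floor_add_one (x - u)
    push_cast
    linarith
  · have := Int.floor_le (x - u)
    push_cast
    linarith
  · rw [per_int h.per]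
    exact hu

/-- the first exit from a strip -/
theorem exit_right (hc : Continuous S) {x σ₁ σ₂ : ℝ} (h1 : σ₁ < S x) (h2 : S x < σ₂)
    (he : ∃ u, x < u ∧ (S u ≤ σ₁ ∨ σ₂ ≤ S u)) :
    ∃ β, x < β ∧ (S β = σ₁ ∨ S β = σ₂) ∧ ∀ u, x ≤ u → u < β → σ₁ < S u ∧ S u < σ₂ := by
  set A : Set ℝ := {u | x ≤ u ∧ (S u ≤ σ₁ ∨ σ₂ ≤ S u)} with hA
  have hAc : IsClosed A :=
    (isClosed_le continuous_const continuous_id).inter
      ((isClosed_le hc continuous_const).union (isClosed_le continuous_const hc))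
  have hAn : A.Nonempty := by
    obtain ⟨u, hu, hu'⟩ := he
    exact ⟨u, hu.le, hu'⟩
  have hAb : BddBelow A := ⟨x, fun u hu => hu.1⟩
  have hm := hAc.csInf_mem hAn hAb
  have hbel : ∀ u, x ≤ u → u < sInf A → σ₁ < S u ∧ S u < σ₂ := by
    intro u hu hlt
    have h3 : u ∉ A := fun h3 => absurd (csInf_le hAb h3) (not_le.2 hlt)
    have h4 : ¬ (S u ≤ σ₁ ∨ σ₂ ≤ S u) := fun h4 => h3 ⟨hu, h4⟩
    push Not at h4
    exact h4
  have hxA : x < sInf A := by
    refine lt_of_le_of_ne hm.1 fun hh => ?_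
    rcases hm.2 with h3 | h3
    · rw [← hh] at h3
      linarith
    · rw [← hh] at h3
      linarith
  refine ⟨sInf A, hxA, ?_, hbel⟩
  have ht : Tendsto S (𝓝[<] (sInf A)) (𝓝 (S (sInf A))) :=
    (hc.tendsto _).mono_left nhdsWithin_le_nhds
  have hev : ∀ᶠ u in 𝓝[<] (sInf A), σ₁ < S u ∧ S u < σ₂ := by
    filter_upwards [Ioo_mem_nhdsLT hxA] with u hu
    exact hbel u hu.1.le hu.2
  have l1 : σ₁ ≤ S (sInf A) := ge_of_tendsto ht (hev.mono fun u hu => hu.1.le)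
  have l2 : S (sInf A) ≤ σ₂ := le_of_tendsto ht (hev.mono fun u hu => hu.2.le)
  rcases hm.2 with h3 | h3
  · exact Or.inl (le_antisymm h3 l1)
  · exact Or.inr (le_antisymm l2 h3)

/-- the component of a strip -/
theorem SF.comp (h : SF S θ) {x σ₁ σ₂ : ℝ} (h1 : σ₁ < S x) (h2 : S x < σ₂)
    (hσ₁ : -θ < σ₁) (hσ₂ : σ₂ < θ) :
    ∃ α β, α < x ∧ x < β ∧ (∀ u, α < u → u < β → σ₁ < S u ∧ S u < σ₂) ∧
      ((S α = σ₁ ∧ S β = σ₂) ∨ (S α = σ₂ ∧ S β = σ₁)) := by
  obtain ⟨β, hβ, hβ', hβ''⟩ := exit_right h.cont h1 h2 (by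
    obtain ⟨u, hu, -, hu'⟩ := h.high_in x
    exact ⟨u, hu, Or.inr (hσ₂.le.trans hu')⟩)
  have h' := h.refl
  obtain ⟨α, hα, hα', hα''⟩ := exit_right (S := fun t => S (-t)) (x := -x) h'.cont
    (σ₁ := σ₁) (σ₂ := σ₂) (by simpa using h1) (by simpa using h2) (by
      obtain ⟨u, hu, -, hu'⟩ := h'.high_in (-x)
      exact ⟨u, hu, Or.inr (hσ₂.le.trans hu')⟩)
  have hall : ∀ u, -α < u → u < β → σ₁ < S u ∧ S u < σ₂ := by
    intro u hu1 hu2
    rcases le_total x u with hxu | hxu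
    · exact hβ'' u hxu hu2
    · have h3 := hα'' (-u) (by linarith) (by linarith)
      simpa using h3
  have hb : ∀ u ∈ Icc (-α) β, |S u| < θ := by
    intro u hu
    rcases eq_or_lt_of_le hu.1 with he | he
    · rw [← he]
      rcases hα' with h3 | h3
      · rw [h3, abs_lt]; constructor <;> linarith
      · rw [h3, abs_lt]; constructor <;> linarith
    · rcases eq_or_lt_of_le hu.2 with he' | he'
      · rw [he']
        rcases hβ' with h3 | h3
        · rw [h3, abs_lt]; constructor <;> linarith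
        · rw [h3, abs_lt]; constructor <;> linarith
      · have h3 := hall u he he'
        rw [abs_lt]; constructor <;> linarith
  refine ⟨-α, β, by linarith, hβ, hall, ?_⟩
  rcases hα' with h3 | h3 <;> rcases hβ' with h4 | h4
  · exact (h.inj (by linarith) (h3.trans h4.symm) hb).elim
  · exact Or.inl ⟨h3, h4⟩
  · exact Or.inr ⟨h3, h4⟩
  · exact (h.inj (by linarith) (h3.trans h4.symm) hb).elim

theorem SF.finite (h : SF S θ) {s : ℝ} (hs : |s| < θ) : (Z S s).Finite := by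
  by_contra hinf
  obtain ⟨x, -, hx⟩ := (show (Z S s).Infinite from hinf).exists_accPt_of_subset_isCompact
    (isCompact_Icc (a := (0 : ℝ)) (b := 1)) fun t ht => Ico_subset_Icc_self ht.1
  have hSx : S x = s := by
    have h1 : IsClosed {t | S t = s} := isClosed_eq h.cont continuous_const
    have h2 : x ∈ closure {t | S t = s} := by
      rw [mem_closure_iff_clusterPt]
      exact hx.clusterPt.mono (principal_mono.2 fun t ht => ht.2)
    rwa [h1.closure_eq] at h2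
  have hev : ∀ᶠ u in 𝓝 x, |S u| < θ :=
    (h.cont.abs.tendsto x).eventually_lt_const (by rwa [hSx])
  obtain ⟨ε, hε, hball⟩ := Metric.eventually_nhds_iff_ball.1 hev
  rw [accPt_iff_nhds] at hx
  obtain ⟨y, ⟨hy1, hy2⟩, hyx⟩ := hx (Metric.ball x ε) (Metric.ball_mem_nhds x hε)
  refine hyx (h.inj' (hy2.2.trans hSx.symm) fun u hu => hball u ?_)
  exact (convex_ball x ε).ordConnected.uIcc_subset hy1 (Metric.mem_ball_self hε) hu

/-- components of a strip contain places of other functions -/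
theorem SF.inject (h : SF S θ) (hT : Continuous T) {s₀ σ₁ σ₂ ρ : ℝ} (h1 : σ₁ < s₀)
    (h2 : s₀ < σ₂) (hσ₁ : -θ < σ₁) (hσ₂ : σ₂ < θ) (hm : ∀ t, S t = σ₁ → T t < ρ)
    (hp : ∀ t, S t = σ₂ → ρ < T t) (x : ℝ) (hx : S x = s₀) :
    ∃ τ, T τ = ρ ∧ ∀ u ∈ uIcc x τ, σ₁ < S u ∧ S u < σ₂ := by
  obtain ⟨α, β, hα, hβ, hab, hends⟩ := h.comp (x := x) (σ₁ := σ₁) (σ₂ := σ₂)
    (by rwa [hx]) (by rwa [hx]) hσ₁ hσ₂
  have hαβ : α < β := hα.trans hβ
  have key : ∃ τ, α < τ ∧ τ < β ∧ T τ = ρ := by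
    rcases hends with ⟨e1, e2⟩ | ⟨e1, e2⟩
    · obtain ⟨τ, hτ, hτ'⟩ := intermediate_value_Ioo hαβ.le hT.continuousOn
        (show ρ ∈ Ioo (T α) (T β) from ⟨hm α e1, hp β e2⟩)
      exact ⟨τ, hτ.1, hτ.2, hτ'⟩
    · obtain ⟨τ, hτ, hτ'⟩ := intermediate_value_Ioo' hαβ.le hT.continuousOn
        (show ρ ∈ Ioo (T β) (T α) from ⟨hm β e2, hp α e1⟩)
      exact ⟨τ, hτ.1, hτ.2, hτ'⟩
  obtain ⟨τ, hτ1, hτ2, hτ⟩ := key
  refine ⟨τ, hτ, fun u hu => ?_⟩
  have hu' : u ∈ Ioo α β :=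
    (ordConnected_Ioo (a := α) (b := β)).uIcc_subset ⟨hα, hβ⟩ ⟨hτ1, hτ2⟩ hu
  exact hab u hu'.1 hu'.2

theorem fract_eq {x y : ℝ} (h : Int.fract x = Int.fract y) : ∃ k : ℤ, y = x + k := by
  refine ⟨⌊y⌋ - ⌊x⌋, ?_⟩
  have h1 := Int.fract_add_floor x
  have h2 := Int.fract_add_floor y
  push_cast
  linarith

/-- the injection of the places -/
theorem SF.card_le (h : SF S θ) (hT : Continuous T) (hTp : ∀ t, T (t + 1) = T t)
    {s₀ σ₁ σ₂ ρ : ℝ} (h1 : σ₁ < s₀) (h2 : s₀ < σ₂) (hσ₁ : -θ < σ₁) (hσ₂ : σ₂ < θ)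
    (hm : ∀ t, S t = σ₁ → T t < ρ) (hp : ∀ t, S t = σ₂ → ρ < T t) (hfin : (Z T ρ).Finite) :
    (Z S s₀).ncard ≤ (Z T ρ).ncard ∧ ((Z T ρ).ncard ≤ (Z S s₀).ncard →
      ∀ t, T t = ρ → σ₁ < S t ∧ S t < σ₂) := by
  have hex : ∀ x, ∃ τ, S x = s₀ → T τ = ρ ∧ ∀ u ∈ uIcc x τ, σ₁ < S u ∧ S u < σ₂ := by
    intro x
    by_cases hx : S x = s₀
    · obtain ⟨τ, hτ⟩ := h.inject hT h1 h2 hσ₁ hσ₂ hm hp x hx
      exact ⟨τ, fun _ => hτ⟩
    · exact ⟨0, fun hh => absurd hh hx⟩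
  choose φ hφ using hex
  have hmaps : ∀ x ∈ Z S s₀, Int.fract (φ x) ∈ Z T ρ := by
    intro x hx
    refine ⟨⟨Int.fract_nonneg _, Int.fract_lt_one _⟩, ?_⟩
    rw [per_fract hTp]
    exact (hφ x hx.2).1
  have hsh : ∀ (x : ℝ) (k : ℤ) (u : ℝ), (∀ w ∈ uIcc x (u + k), σ₁ < S w ∧ S w < σ₂) →
      ∀ v ∈ uIcc (x - k) u, σ₁ < S v ∧ S v < σ₂ := by
    intro x k u hu v hv
    have h3 : v + k ∈ uIcc x (u + k) := by
      rcases mem_uIcc.1 hv with hh | hh
      · exact mem_uIcc.2 (Or.inl ⟨by linarith [hh.1], by linarith [hh.2]⟩)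
      · exact mem_uIcc.2 (Or.inr ⟨by linarith [hh.1], by linarith [hh.2]⟩)
    have h4 := hu _ h3
    rwa [per_int h.per] at h4
  have hinj : InjOn (fun x => Int.fract (φ x)) (Z S s₀) := by
    intro x hx x' hx' he
    obtain ⟨k, hk⟩ := fract_eq he
    have a1 := (hφ x hx.2).2
    have a2 := (hφ x' hx'.2).2
    rw [hk] at a2
    have a3 := hsh x' k (φ x) a2
    have e1 : S (x' - k) = S x := by
      have := per_int h.per (x' - k) k
      rw [sub_add_cancel] at this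
      rw [← this, hx.2, hx'.2]
    have a4 : x' - k = x := by
      refine h.inj' e1 fun u hu => ?_
      have hu' : u ∈ uIcc (x' - k) (φ x) ∪ uIcc (φ x) x := uIcc_subset_uIcc_union_uIcc hu
      have h5 : σ₁ < S u ∧ S u < σ₂ := by
        rcases hu' with h6 | h6
        · exact a3 u h6
        · exact a1 u (by rwa [uIcc_comm])
      rw [abs_lt]
      constructor <;> linarith [h5.1, h5.2]
    have b1 := hx.1
    have b2 := hx'.1
    have c1 : (k : ℝ) < 1 := by linarith [b1.1, b2.2]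
    have c2 : (-1 : ℝ) < k := by linarith [b1.2, b2.1]
    have d1 : k < 1 := by exact_mod_cast c1
    have d2 : -1 < k := by exact_mod_cast c2
    have d3 : k = 0 := by omega
    rw [d3] at a4
    simpa using a4.symm
  refine ⟨Set.ncard_le_ncard_of_injOn _ hmaps hinj hfin, fun hle t ht => ?_⟩
  have hfr : Int.fract t ∈ Z T ρ :=
    ⟨⟨Int.fract_nonneg _, Int.fract_lt_one _⟩, by rw [per_fract hTp, ht]⟩
  obtain ⟨x, hx, he⟩ := Set.surj_on_of_inj_on_of_ncard_le (s := Z S s₀) (t := Z T ρ)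
    (fun x _ => Int.fract (φ x)) (fun x hx => hmaps x hx)
    (fun x x' hx hx' he => hinj hx hx' he) hle hfin (Int.fract t) hfr
  obtain ⟨k, hk⟩ := fract_eq he
  have h5 := (hφ x hx.2).2 (φ x) right_mem_uIcc
  have h6 : S t = S (φ x) := by
    have e : φ x = t + k ∨ t = φ x + k := by
      first
        | exact Or.inr hk
        | exact Or.inl hk
    rcases e with e | e
    · rw [e, per_int h.per]
    · rw [e, per_int h.per]
  rw [h6]
  exact h5

/-- the number of the places is the same for all levels -/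
theorem SF.card_eq (h : SF S θ) {s s' : ℝ} (hs : |s| < θ) (hs' : |s'| < θ) :
    (Z S s).ncard = (Z S s').ncard := by
  have key : ∀ s s' : ℝ, |s| < θ → |s'| < θ → (Z S s).ncard ≤ (Z S s').ncard := by
    intro s s' hs hs'
    rw [abs_lt] at hs
    obtain ⟨σ₁, a1, a2⟩ := exists_between (show -θ < min s s' from lt_min hs.1 (abs_lt.1 hs').1)
    obtain ⟨σ₂, b1, b2⟩ := exists_between (show max s s' < θ from max_lt hs.2 (abs_lt.1 hs').2)
    refine (h.card_le h.cont h.per (s₀ := s) (σ₁ := σ₁) (σ₂ := σ₂) (ρ := s')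
      (lt_of_lt_of_le a2 (min_le_left _ _)) (lt_of_le_of_lt (le_max_left _ _) b1) a1 b2 ?_ ?_
      (h.finite hs')).1
    · intro t ht
      rw [ht]
      exact lt_of_lt_of_le a2 (min_le_right _ _)
    · intro t ht
      rw [ht]
      exact lt_of_le_of_lt (le_max_right _ _) b1
  exact le_antisymm (key s s' hs hs') (key s' s hs' hs)

/-- **Grid lemma, first part.** -/
theorem grid1 (h : SF S θ) (h' : SF T θ) {δ : ℝ} (hδ : 0 < δ) {n : ℤ} (hn : n * δ < θ)
    (hcard : ∀ ρ, |ρ| < θ → (Z T ρ).ncard ≤ (Z S ρ).ncard)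
    (tr : ∀ t, ∀ k : ℤ, |k| ≤ n → S t = k * δ → |T t - k * δ| < δ) (t : ℝ)
    (ht : |T t| ≤ (n - 2) * δ) : |S t - T t| < 2 * δ := by
  set ρ := T t with hρ
  set k : ℤ := ⌊ρ / δ⌋ with hk
  have k1 : k * δ ≤ ρ := by
    have := Int.floor_le (ρ / δ)
    rwa [le_div_iff₀ hδ] at this
  have k2 : ρ < (k + 1) * δ := by
    have := Int.lt_floor_add_one (ρ / δ)
    rwa [div_lt_iff₀ hδ] at this
  obtain ⟨t1, t2⟩ := abs_le.1 ht
  have n1 : (k : ℝ) ≤ n - 2 := by
    by_contra hcon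
    push Not at hcon
    have := mul_lt_mul_of_pos_right hcon hδ
    linarith
  have n2 : -(n : ℝ) + 1 < k := by
    by_contra hcon
    push Not at hcon
    have := mul_le_mul_of_nonneg_right hcon hδ.le
    nlinarith
  have m1 : k ≤ n - 2 := by exact_mod_cast n1
  have m2 : -n + 1 < k := by exact_mod_cast n2
  have hρθ : |ρ| < θ := by
    refine lt_of_le_of_lt ht ?_
    nlinarith
  have hc := h.card_le h'.cont h'.per (s₀ := ρ) (σ₁ := ((k - 1 : ℤ) : ℝ) * δ)
    (σ₂ := ((k + 2 : ℤ) : ℝ) * δ) (ρ := ρ) ?_ ?_ ?_ ?_ ?_ ?_ (h'.finite hρθ)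
  · have h3 := hc.2 (hcard ρ hρθ) t rfl
    push_cast at h3
    rw [abs_lt]
    constructor <;> nlinarith [h3.1, h3.2]
  · push_cast
    nlinarith
  · push_cast
    nlinarith
  · have h5 : (-n : ℝ) ≤ k - 1 := by
      have : -n ≤ k - 1 := by omega
      exact_mod_cast this
    push_cast
    have := mul_le_mul_of_nonneg_right h5 hδ.le
    linarith
  · have h5 : (k : ℝ) + 2 ≤ n := by
      have : k + 2 ≤ n := by omega
      exact_mod_cast this
    push_cast
    have := mul_le_mul_of_nonneg_right h5 hδ.le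
    linarith
  · intro u hu
    have h5 := tr u (k - 1) (by rw [abs_le]; constructor <;> omega) hu
    have h6 := (abs_lt.1 h5).2
    push_cast at h6
    linarith
  · intro u hu
    have h5 := tr u (k + 2) (by rw [abs_le]; constructor <;> omega) hu
    have h6 := (abs_lt.1 h5).1
    push_cast at h6
    linarith

/-- the first point to the right with a higher value -/
theorem reach (hc : Continuous S) {t c : ℝ} (h1 : S t < c) (he : ∃ u, t < u ∧ c ≤ S u) :
    ∃ e, t < e ∧ S e = c ∧ ∀ u, t ≤ u → u < e → S u < c := by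
  set A : Set ℝ := {u | t ≤ u ∧ c ≤ S u} with hA
  have hAc : IsClosed A :=
    (isClosed_le continuous_const continuous_id).inter (isClosed_le continuous_const hc)
  have hAn : A.Nonempty := by
    obtain ⟨u, hu, hu'⟩ := he
    exact ⟨u, hu.le, hu'⟩
  have hAb : BddBelow A := ⟨t, fun u hu => hu.1⟩
  have hm := hAc.csInf_mem hAn hAb
  have hbel : ∀ u, t ≤ u → u < sInf A → S u < c := by
    intro u hu hlt
    have h3 : u ∉ A := fun h3 => absurd (csInf_le hAb h3) (not_le.2 hlt)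
    by_contra h4
    exact h3 ⟨hu, not_lt.1 h4⟩
  have hxA : t < sInf A := by
    refine lt_of_le_of_ne hm.1 fun hh => ?_
    have h3 := hm.2
    rw [← hh] at h3
    linarith
  refine ⟨sInf A, hxA, ?_, hbel⟩
  have ht : Tendsto S (𝓝[<] (sInf A)) (𝓝 (S (sInf A))) :=
    (hc.tendsto _).mono_left nhdsWithin_le_nhds
  have hev : ∀ᶠ u in 𝓝[<] (sInf A), S u ≤ c := by
    filter_upwards [Ioo_mem_nhdsLT hxA] with u hu
    exact (hbel u hu.1.le hu.2).le
  exact le_antisymm (le_of_tendsto ht hev) hm.2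

/-- one half of the second part -/
theorem grid2' (h : SF S θ) (h' : SF T θ) {δ : ℝ} (hδ : 0 < δ) {n : ℤ} (hn : n * δ < θ)
    (hcard : ∀ ρ, |ρ| < θ → (Z T ρ).ncard ≤ (Z S ρ).ncard)
    (tr : ∀ t, ∀ k : ℤ, |k| ≤ n → S t = k * δ → |T t - k * δ| < δ) (t : ℝ)
    (ht : |S t| ≤ (n - 6) * δ) : T t < S t + 5 * δ := by
  by_contra hcon
  push Not at hcon
  obtain ⟨t1, t2⟩ := abs_le.1 ht
  set k : ℤ := ⌊S t / δ⌋ + 1 with hk
  have k1 : (k - 1) * δ ≤ S t := by
    have := Int.floor_le (S t / δ)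
    rw [le_div_iff₀ hδ] at this
    rw [hk]
    push_cast
    linarith
  have k2 : S t < k * δ := by
    have := Int.lt_floor_add_one (S t / δ)
    rw [div_lt_iff₀ hδ] at this
    rw [hk]
    push_cast
    linarith
  have n1 : (k : ℝ) ≤ n - 5 := by
    by_contra hcon
    push Not at hcon
    have := mul_lt_mul_of_pos_right hcon hδ
    nlinarith
  have n2 : -(n : ℝ) + 6 < k := by
    by_contra hcon
    push Not at hcon
    have := mul_le_mul_of_nonneg_right hcon hδ.le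
    nlinarith
  have m1 : k ≤ n - 5 := by exact_mod_cast n1
  have m2 : -n + 6 < k := by exact_mod_cast n2
  have hkθ : (k : ℝ) * δ < θ := by nlinarith
  obtain ⟨e, he1, he4, he3⟩ := reach h.cont (t := t) (c := k * δ) k2 (by
      obtain ⟨u, hu, -, hu'⟩ := h.high_in t
      exact ⟨u, hu, hkθ.le.trans hu'⟩)
  have hTe : T e < (k + 1) * δ := by
    have h5 := tr e k (by rw [abs_le]; constructor <;> omega) he4
    have h6 := (abs_lt.1 h5).2
    linarith
  obtain ⟨c, hc1, hc2⟩ := intermediate_value_Icc' he1.le h'.cont.continuousOn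
    (show ((k : ℝ) + 3) * δ ∈ Icc (T e) (T t) from ⟨by nlinarith, by nlinarith⟩)
  have hc3 : c < e := by
    refine lt_of_le_of_ne hc1.2 fun h4 => ?_
    rw [h4] at hc2
    nlinarith
  have h7 := he3 c hc1.1 hc3
  have h8 := grid1 h h' hδ hn hcard tr c (by
    rw [hc2, abs_le]
    constructor <;> nlinarith)
  rw [hc2] at h8
  have h9 := (abs_lt.1 h8).1
  nlinarith

theorem Z_neg (S : ℝ → ℝ) (ρ : ℝ) : Z (fun t => -S t) ρ = Z S (-ρ) := by
  ext t
  constructor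
  · rintro ⟨h1, h2⟩
    exact ⟨h1, by rw [← h2, neg_neg]⟩
  · rintro ⟨h1, h2⟩
    exact ⟨h1, by show -S t = ρ; rw [h2, neg_neg]⟩

/-- **Grid lemma, second part.** -/
theorem grid2 (h : SF S θ) (h' : SF T θ) {δ : ℝ} (hδ : 0 < δ) {n : ℤ} (hn : n * δ < θ)
    (hcard : ∀ ρ, |ρ| < θ → (Z T ρ).ncard ≤ (Z S ρ).ncard)
    (tr : ∀ t, ∀ k : ℤ, |k| ≤ n → S t = k * δ → |T t - k * δ| < δ) (t : ℝ)
    (ht : |S t| ≤ (n - 6) * δ) : |T t - S t| < 5 * δ := by
  have h1 := grid2' h h' hδ hn hcard tr t ht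
  have h2 := grid2' h.neg h'.neg hδ hn
    (fun ρ hρ => by rw [Z_neg, Z_neg]; exact hcard _ (by rwa [abs_neg]))
    (fun u k hk hu => by
      have h3 := tr u (-k) (by rwa [abs_neg]) (by push_cast; linarith)
      push_cast at h3
      rw [← abs_neg]
      convert h3 using 2
      ring) t (by rwa [abs_neg])
  rw [abs_lt]
  constructor <;> linarith

/-- **The combined form.** -/
theorem grid3 {S' : ℝ → ℝ} (h : SF S θ) (hS' : SF S' θ) (h' : SF T θ) {δ : ℝ} (hδ : 0 < δ)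
    {n : ℤ} (hn : n * δ < θ)
    (hcard : ∀ ρ, |ρ| < θ → (Z T ρ).ncard ≤ (Z S ρ).ncard)
    (hcard' : ∀ ρ, |ρ| < θ → (Z T ρ).ncard ≤ (Z S' ρ).ncard)
    (tr : ∀ t, ∀ k : ℤ, |k| ≤ n → S t = k * δ → |T t - k * δ| < δ)
    (tr' : ∀ t, ∀ k : ℤ, |k| ≤ n → S' t = k * δ → |T t - k * δ| < δ) (t : ℝ)
    (ht : |S' t| ≤ (n - 7) * δ) : |S t - S' t| < 7 * δ := by
  have h1 := grid2 hS' h' hδ hn hcard' tr' t (by linarith)
  have h2 := grid1 h h' hδ hn hcard tr t (by
    obtain ⟨a, b⟩ := abs_le.1 ht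
    obtain ⟨c, d⟩ := abs_lt.1 h1
    rw [abs_le]
    constructor <;> linarith)
  obtain ⟨a, b⟩ := abs_lt.1 h1
  obtain ⟨c, d⟩ := abs_lt.1 h2
  rw [abs_lt]
  constructor <;> linarith

/-- **Pigeonhole for components.** -/
theorem SF.pig (h : SF S θ) {s κ : ℝ} (hs : |s| + κ < θ) {K : ℕ} (hK : (Z S s).ncard = K)
    (hκ : 0 < κ) (τ : Fin (K + 1) → ℝ) (hτ : ∀ i, τ i ∈ Ico (0 : ℝ) 1)
    (hτ' : ∀ i, |S (τ i) - s| < κ) :
    ∃ i j, i ≠ j ∧ ∃ k : ℤ, |k| ≤ 1 ∧ ∀ u ∈ uIcc (τ i) (τ j + k), |S u - s| < κ := by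
  have hsb := abs_lt.1 (show |s| < θ - κ by linarith)
  have hex : ∀ i, ∃ x, S x = s ∧ ∀ u ∈ uIcc (τ i) x, |S u - s| < κ := by
    intro i
    obtain ⟨a1, a2⟩ := abs_lt.1 (hτ' i)
    obtain ⟨α, β, hα, hβ, hab, hends⟩ := h.comp (x := τ i) (σ₁ := s - κ) (σ₂ := s + κ)
      (by linarith) (by linarith) (by linarith) (by linarith)
    have hαβ : α < β := hα.trans hβ
    have key : ∃ x, α < x ∧ x < β ∧ S x = s := by
      rcases hends with ⟨e1, e2⟩ | ⟨e1, e2⟩
      · obtain ⟨τ, hτ, hτ'⟩ := intermediate_value_Ioo hαβ.le h.cont.continuousOn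
          (show s ∈ Ioo (S α) (S β) from ⟨by linarith, by linarith⟩)
        exact ⟨τ, hτ.1, hτ.2, hτ'⟩
      · obtain ⟨τ, hτ, hτ'⟩ := intermediate_value_Ioo' hαβ.le h.cont.continuousOn
          (show s ∈ Ioo (S β) (S α) from ⟨by linarith, by linarith⟩)
        exact ⟨τ, hτ.1, hτ.2, hτ'⟩
    obtain ⟨x, hx1, hx2, hx⟩ := key
    refine ⟨x, hx, fun u hu => ?_⟩
    have hu' : u ∈ Ioo α β :=
      (ordConnected_Ioo (a := α) (b := β)).uIcc_subset ⟨hα, hβ⟩ ⟨hx1, hx2⟩ hu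
    have h3 := hab u hu'.1 hu'.2
    rw [abs_lt]
    constructor <;> linarith [h3.1, h3.2]
  choose x hx hxu using hex
  have hfin : (Z S s).Finite := h.finite (by linarith)
  obtain ⟨i, -, j, -, hij, he⟩ := Finset.exists_ne_map_eq_of_card_lt_of_maps_to
    (s := (Finset.univ : Finset (Fin (K + 1)))) (t := hfin.toFinset)
    (f := fun i => Int.fract (x i)) (by
      rw [← Set.ncard_eq_toFinset_card _ hfin, hK]
      simp) (fun i _ => by
      simp only [Set.Finite.coe_toFinset]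
      exact ⟨⟨Int.fract_nonneg _, Int.fract_lt_one _⟩, by rw [per_fract h.per, hx]⟩)
  obtain ⟨k, hk⟩ := fract_eq he
  have hall : ∀ u ∈ uIcc (τ i) (τ j + ((-k : ℤ) : ℝ)), |S u - s| < κ := by
    intro u hu
    have hu' : u ∈ uIcc (τ i) (x i) ∪ uIcc (x i) (τ j + ((-k : ℤ) : ℝ)) :=
      uIcc_subset_uIcc_union_uIcc hu
    rcases hu' with h3 | h3
    · exact hxu i u h3
    · have h4 : u + k ∈ uIcc (τ j) (x j) := by
        rw [hk, uIcc_comm]
        push_cast at h3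
        rcases mem_uIcc.1 h3 with hh | hh
        · exact mem_uIcc.2 (Or.inl ⟨by linarith [hh.1], by linarith [hh.2]⟩)
        · exact mem_uIcc.2 (Or.inr ⟨by linarith [hh.1], by linarith [hh.2]⟩)
      have h5 := hxu j _ h4
      rwa [per_int h.per] at h5
  refine ⟨i, j, hij, -k, ?_, hall⟩
  -- the length of the interval is less than one
  have hlen : |τ j + ((-k : ℤ) : ℝ) - τ i| < 1 := by
    by_contra hcon
    push Not at hcon
    obtain ⟨u, hu1, hu2, hu3⟩ := h.high_in (min (τ i) (τ j + ((-k : ℤ) : ℝ)))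
    have hmem : u ∈ uIcc (τ i) (τ j + ((-k : ℤ) : ℝ)) := by
      refine ⟨hu1.le, hu2.trans ?_⟩
      have := max_sub_min_eq_abs (τ i) (τ j + ((-k : ℤ) : ℝ))
      show min (τ i) (τ j + ((-k : ℤ) : ℝ)) + 1 ≤ max (τ i) (τ j + ((-k : ℤ) : ℝ))
      linarith
    have h6 := (abs_lt.1 (hall u hmem)).2
    linarith
  obtain ⟨a1, a2⟩ := abs_lt.1 hlen
  have b1 := hτ i
  have b2 := hτ j
  have c1 : ((-k : ℤ) : ℝ) < 2 := by linarith [b1.1, b1.2, b2.1, b2.2]
  have c2 : (-2 : ℝ) < ((-k : ℤ) : ℝ) := by linarith [b1.1, b1.2, b2.1, b2.2]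
  have d1 : -k < 2 := by exact_mod_cast c1
  have d2 : -2 < -k := by exact_mod_cast c2
  rw [abs_le]
  constructor <;> omega

end Pool.Agent.V5helper25.TK
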