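import Pool.Agent.V5helper25.TK.Base

/-!
# MP_4a0782, circle extensions with constant number of periodic points: tracking and recurrence
-/

set_option autoImplicit false
set_option linter.unusedSectionVars false

open scoped Topology
open Filter Set Metric

universe u v

namespace Pool.Agent.V5helper25.TK

open Pool.Agent.TH80.OMS Pool.Agent.N813.CX Pool.Agent.N813.CX.CLOS

section

variable {N : Type u} [MetricSpace N] [CompactSpace N] {B : Type v} [MetricSpace B] {F : N ≃ₜ N}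
  {ψ : ℝ → N → N} {a : N → ℝ → ℝ} {π : N → B} {f : B → B} {θ₀ : ℝ} {K : ℕ} {S : N → ℝ → ℝ}

theorem psi_eq {G : N → N} (h : TopExt G ψ a) (x : N) (s t : ℝ) :
    ψ s x = ψ t x ↔ ∃ j : ℤ, s = t + j := by
  have e : ψ s x = ψ (s - t) (ψ t x) := by rw [← h.add]; congr 1; ring
  rw [e, h.free]
  constructor
  · rintro ⟨j, hj⟩
    exact ⟨j, by linarith⟩
  · rintro ⟨j, hj⟩
    exact ⟨j, by linarith⟩

theorem psi_fract {G : N → N} (h : TopExt G ψ a) (t : ℝ) (y : N) : ψ (Int.fract t) y = ψ t y := by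
  refine (psi_eq h y _ _).2 ⟨-⌊t⌋, ?_⟩
  unfold Int.fract
  push_cast
  ring

/-- the rotations are uniformly continuous -/
theorem psi_unif {G : N → N} (h : TopExt G ψ a) {ε : ℝ} (hε : 0 < ε) :
    ∃ δ : ℝ, 0 < δ ∧ ∀ (t : ℝ) (y y' : N), dist y y' < δ → dist (ψ t y) (ψ t y') < ε := by
  have hK : IsCompact (Icc (0 : ℝ) 1 ×ˢ (univ : Set N)) := isCompact_Icc.prod isCompact_univ
  have hu := hK.uniformContinuousOn_of_continuous h.cont.continuousOn
  obtain ⟨δ, hδ, hδ'⟩ := Metric.uniformContinuousOn_iff.1 hu ε hε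
  refine ⟨δ, hδ, fun t y y' hd => ?_⟩
  have hf : Int.fract t ∈ Icc (0 : ℝ) 1 := ⟨Int.fract_nonneg t, (Int.fract_lt_one t).le⟩
  rw [← psi_fract h t y, ← psi_fract h t y']
  exact hδ' (Int.fract t, y) ⟨hf, mem_univ _⟩ (Int.fract t, y') ⟨hf, mem_univ _⟩
    (by rw [Prod.dist_eq, dist_self]; exact max_lt hδ hd)

/-- the fibre maps depend continuously on the fibre -/
theorem a_close {G : N → N} (h : TopExt G ψ a) (hG : Continuous G) {ε : ℝ} (hε : 0 < ε) :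
    ∃ δ : ℝ, 0 < δ ∧ ∀ v v' : N, dist v v' < δ → ∀ t, |a v t - a v' t| ≤ ε := by
  obtain ⟨ε', hε', h1, h2⟩ : ∃ ε' : ℝ, 0 < ε' ∧ ε' ≤ ε ∧ ε' ≤ 1 / 2 :=
    ⟨min ε (1 / 2), by positivity, min_le_left _ _, min_le_right _ _⟩
  obtain ⟨δ₁, hδ₁, H1⟩ := u1 h ε' hε'
  obtain ⟨δ₂, hδ₂, H2⟩ := psi_unif h (show 0 < δ₁ / 2 by linarith)
  obtain ⟨δ₃, hδ₃, H3⟩ := Metric.uniformContinuous_iff.1
    (CompactSpace.uniformContinuous_of_continuous hG) (min δ₂ (δ₁ / 2)) (by positivity)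
  obtain ⟨δ₄, hδ₄, H4⟩ := psi_unif h hδ₃
  refine ⟨min δ₃ δ₄, by positivity, fun v v' hd => ?_⟩
  have hd3 : dist v v' < δ₃ := hd.trans_le (min_le_left _ _)
  have hd4 : dist v v' < δ₄ := hd.trans_le (min_le_right _ _)
  have key : ∀ t, ∃ j : ℤ, |a v t - a v' t - j| < ε' := by
    intro t
    have e1 : dist (G (ψ t v)) (G (ψ t v')) < δ₁ / 2 :=
      (H3 (H4 t v v' hd4)).trans_le (min_le_right _ _)
    have e2 : dist (ψ (a v t) (G v)) (ψ (a v t) (G v')) < δ₁ / 2 :=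
      H2 _ _ _ ((H3 hd3).trans_le (min_le_left _ _))
    rw [h.ext, h.ext] at e1
    have e3 : ψ (a v t) (G v') = ψ (a v t - a v' t) (ψ (a v' t) (G v')) := by
      rw [← h.add]
      congr 1
      ring
    have e4 : dist (ψ (a v t - a v' t) (ψ (a v' t) (G v'))) (ψ (a v' t) (G v')) < δ₁ := by
      rw [← e3]
      have := dist_triangle_left (ψ (a v t) (G v')) (ψ (a v' t) (G v')) (ψ (a v t) (G v))
      linarith
    obtain ⟨σ, hσ, hσ'⟩ := H1 _ _ e4
    obtain ⟨j, hj⟩ := (psi_eq h _ _ _).1 hσ'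
    exact ⟨j, by rw [hj]; simpa using hσ⟩
  have hc : Continuous fun t => |a v t - a v' t| := ((h.acont v).sub (h.acont v')).abs
  intro t
  refine le_trans ?_ h1
  by_contra hcon
  push Not at hcon
  have h0 : |a v 0 - a v' 0| = 0 := by rw [h.azero, h.azero]; simp
  obtain ⟨c, hcc⟩ := mem_range_of_exists_le_of_exists_ge (c := ε') hc
    ⟨0, by rw [h0]; exact hε'.le⟩ ⟨t, hcon.le⟩
  obtain ⟨j, hj⟩ := key c
  have hcc' : |a v c - a v' c| = ε' := hcc
  have h5 : |(j : ℝ)| < 1 := by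
    have h6 : (j : ℝ) = (a v c - a v' c) - (a v c - a v' c - j) := by ring
    rw [h6]
    have h7 := abs_sub (a v c - a v' c) (a v c - a v' c - j)
    linarith
  have h8 : |j| < 1 := by exact_mod_cast h5
  have h9 : j = 0 := Int.abs_lt_one_iff.1 h8
  rw [h9, Int.cast_zero, sub_zero, hcc'] at hj
  exact lt_irrefl _ hj

/-- **Tracking.** -/
theorem track {G : N → N} (hG : Continuous G) (h : TopExt G ψ a) (hπ : OrbitMap G ψ π f) {ε : ℝ}
    (hε : 0 < ε) :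
    ∃ η : ℝ, 0 < η ∧ ∀ (z : B) (m : ℕ) (u v : N), 1 ≤ m → f^[m] z = z → dist (G^[m] u) u < η →
      (∀ i ≤ m, dist (f^[i] z) (π (G^[i] u)) < η) → π v = z → dist v u < η →
      ∃ θ : ℝ, |θ| < ε ∧ v ∈ Per fun y => ψ θ (G y) := by
  obtain ⟨ε₁, hε₁, hε₁'⟩ : ∃ ε₁ : ℝ, 0 < ε₁ ∧ 2 * ε₁ < ε := ⟨ε / 4, by linarith, by linarith⟩
  obtain ⟨δ₁, hδ₁, H1⟩ := u1 h ε₁ hε₁
  obtain ⟨δc, hδc, H2⟩ := Metric.uniformContinuous_iff.1
    (CompactSpace.uniformContinuous_of_continuous hG) (δ₁ / 4) (by linarith)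
  obtain ⟨δ₂, hδ₂, d1, d3⟩ : ∃ δ₂ : ℝ, 0 < δ₂ ∧ δ₂ ≤ δ₁ / 4 ∧ δ₂ ≤ δc :=
    ⟨min (δ₁ / 4) δc, by positivity, min_le_left _ _, min_le_right _ _⟩
  obtain ⟨δ, hδ, H3⟩ := u2 h hπ δ₂ hδ₂
  refine ⟨min δ (min δ₂ (δ₁ / 2)), by positivity, fun z m u v hm hz hu hsh hvz hvu => ?_⟩
  have l1 : min δ (min δ₂ (δ₁ / 2)) ≤ δ := min_le_left _ _
  have l2 : min δ (min δ₂ (δ₁ / 2)) ≤ δ₂ := (min_le_right _ _).trans (min_le_left _ _)
  have l3 : min δ (min δ₂ (δ₁ / 2)) ≤ δ₁ / 2 := (min_le_right _ _).trans (min_le_right _ _)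
  have h5 : ∀ i, ∃ q : N, (i = 0 → q = v) ∧ (i ≤ m → π q = f^[i] z ∧ dist q (G^[i] u) < δ₂) := by
    intro i
    rcases Nat.eq_zero_or_pos i with hi0 | hi0
    · subst hi0
      exact ⟨v, fun _ => rfl, fun _ => ⟨hvz, hvu.trans_le l2⟩⟩
    · by_cases hi : i ≤ m
      · obtain ⟨q, h1, h2⟩ := H3 (G^[i] u) (f^[i] z) ((hsh i hi).trans_le l1)
        exact ⟨q, fun h => by omega, fun _ => ⟨h1, h2⟩⟩
      · exact ⟨v, fun _ => rfl, fun h => absurd h hi⟩
  choose q hq0 hq using h5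
  have hqv : q 0 = v := hq0 0 rfl
  have h6 : ∀ i, ∃ σ : ℝ, |σ| < ε₁ ∧ (i < m → G (q i) = ψ σ (q (i + 1))) := by
    intro i
    by_cases hi : i < m
    · have h1 := hq i hi.le
      have h2 := hq (i + 1) hi
      have h3 : π (q (i + 1)) = π (G (q i)) := by
        rw [h2.1, hπ.semi, h1.1, Function.iterate_succ_apply']
      obtain ⟨t, ht⟩ := (hπ.eq _ _).1 h3
      have h4 : dist (ψ t (q (i + 1))) (q (i + 1)) < δ₁ := by
        rw [← ht]
        have h7 : dist (G (q i)) (G (G^[i] u)) < δ₁ / 4 := H2 (h1.2.trans_le d3)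
        have h8 : dist (q (i + 1)) (G (G^[i] u)) < δ₂ := by
          rw [← Function.iterate_succ_apply' G]; exact h2.2
        calc dist (G (q i)) (q (i + 1)) ≤ dist (G (q i)) (G (G^[i] u)) +
              dist (q (i + 1)) (G (G^[i] u)) := dist_triangle_right _ _ _
          _ < δ₁ := by linarith
      obtain ⟨σ, hσ, hσ'⟩ := H1 _ _ h4
      exact ⟨σ, hσ, fun _ => by rw [ht, hσ']⟩
    · exact ⟨0, by simpa using hε₁, fun h => absurd h hi⟩
  choose σ hσ hσ' using h6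
  have h7 : ∃ σ' : ℝ, |σ'| < ε₁ ∧ q m = ψ σ' (q 0) := by
    have h1 := hq m le_rfl
    have h2 := hq 0 (Nat.zero_le m)
    have h3 : π (q 0) = π (q m) := by
      rw [h1.1, h2.1, hz]; rfl
    obtain ⟨t, ht⟩ := (hπ.eq _ _).1 h3
    have h4 : dist (ψ t (q 0)) (q 0) < δ₁ := by
      rw [← ht]
      have h8 : dist (q 0) u < δ₂ := h2.2
      calc dist (q m) (q 0) ≤ dist (q m) (G^[m] u) + dist (G^[m] u) u + dist u (q 0) :=
            dist_triangle4 _ _ _ _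
        _ < δ₁ := by rw [dist_comm u]; linarith [h1.2]
    obtain ⟨σ', h5, h6⟩ := H1 _ _ h4
    exact ⟨σ', h5, by rw [ht, h6]⟩
  obtain ⟨σ', hσ1, hσ2⟩ := h7
  let b : ℕ → ℝ → ℝ := fun i => a (q i)
  have hb : ∀ i, Monotone (b i) := fun i => (h.amono (q i)).monotone
  have hb0 : ∀ i, b i 0 = 0 := fun i => h.azero (q i)
  have hbc : ∀ i, Continuous (b i) := fun i => h.acont (q i)
  have key : ∀ θ i, i ≤ m → (fun y => ψ θ (G y))^[i] (q 0) = ψ (tau b σ θ i) (q i) := by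
    intro θ i
    induction i with
    | zero => intro _; exact (h.zero (q 0)).symm
    | succ i ih =>
      intro hi
      rw [Function.iterate_succ_apply', ih (Nat.le_of_succ_le hi)]
      show ψ θ (G (ψ (tau b σ θ i) (q i))) = ψ (θ + (b i (tau b σ θ i) + σ i)) (q (i + 1))
      rw [h.ext, hσ' i hi, h.add, h.add]
  have hTc : Continuous fun θ => tau b σ θ m + σ' := (tau_cont b σ hbc m).add continuous_const
  obtain ⟨m', rfl⟩ : ∃ m', m = m' + 1 := ⟨m - 1, by omega⟩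
  have hT1 : 0 < tau b σ (2 * ε₁) (m' + 1) + σ' := by
    have h1 := (tau_pos b σ hb hb0 ε₁ (2 * ε₁) hε₁ hσ rfl m').2
    have h2 := (abs_lt.1 hσ1).1
    linarith
  have hT2 : tau b σ (-(2 * ε₁)) (m' + 1) + σ' < 0 := by
    have h1 := (tau_neg b σ hb hb0 ε₁ (-(2 * ε₁)) hε₁ hσ rfl m').2
    have h2 := (abs_lt.1 hσ1).2
    linarith
  obtain ⟨θ, ⟨hθ1, hθ2⟩, hθ3⟩ := intermediate_value_Icc (a := -(2 * ε₁)) (b := 2 * ε₁)
    (by linarith) hTc.continuousOn ⟨hT2.le, hT1.le⟩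
  refine ⟨θ, ?_, m' + 1, hm, ?_⟩
  · rw [abs_lt]; constructor <;> linarith
  · rw [← hqv, key θ _ le_rfl, hσ2, ← h.add]
    have h3 : tau b σ θ (m' + 1) + σ' = 0 := hθ3
    rw [h3, h.zero]

/-- the pigeonhole principle in a compact space -/
theorem pig_compact (X : Type u) [MetricSpace X] [CompactSpace X] {η : ℝ} (hη : 0 < η) :
    ∃ M : ℕ, ∀ x : ℕ → X, ∃ i j, i < j ∧ j ≤ M ∧ dist (x i) (x j) < η := by
  obtain ⟨t, -, ht, hcov⟩ := finite_cover_balls_of_compact (isCompact_univ (X := X))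
    (show 0 < η / 2 by linarith)
  refine ⟨ht.toFinset.card, fun x => ?_⟩
  have hc : ∀ i, ∃ c ∈ t, dist (x i) c < η / 2 := by
    intro i
    have h1 := hcov (mem_univ (x i))
    simp only [mem_iUnion] at h1
    obtain ⟨c, hc, hc'⟩ := h1
    exact ⟨c, hc, hc'⟩
  choose c hct hcd using hc
  obtain ⟨i, hi, j, hj, hij, he⟩ := Finset.exists_ne_map_eq_of_card_lt_of_maps_to
    (s := Finset.range (ht.toFinset.card + 1)) (t := ht.toFinset) (f := c) (by simp)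
    (fun i _ => by simpa using hct i)
  have hd : dist (x i) (x j) < η := by
    have h1 := dist_triangle_right (x i) (x j) (c i)
    have h2 := hcd i
    have h3 := hcd j
    rw [← he] at h3
    linarith
  rw [Finset.mem_range] at hi hj
  rcases lt_or_gt_of_ne hij with h1 | h1
  · exact ⟨i, j, h1, by omega, hd⟩
  · exact ⟨j, i, h1, by omega, by rwa [dist_comm]⟩

/-- orbits of close points are close -/
theorem near_iter {g : N → N} (hg : Continuous g) (M : ℕ) {δ : ℝ} (hδ : 0 < δ) :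
    ∃ δ' : ℝ, 0 < δ' ∧ ∀ v v' : N, dist v v' < δ' → ∀ j ≤ M, dist (g^[j] v) (g^[j] v') < δ := by
  induction M with
  | zero =>
    refine ⟨δ, hδ, fun v v' hd j hj => ?_⟩
    have : j = 0 := by omega
    subst this
    exact hd
  | succ M ih =>
    obtain ⟨δ₁, hδ₁, h1⟩ := ih
    obtain ⟨δ₂, hδ₂, h2⟩ := Metric.uniformContinuous_iff.1
      (CompactSpace.uniformContinuous_of_continuous (hg.iterate (M + 1))) δ hδ
    refine ⟨min δ₁ δ₂, lt_min hδ₁ hδ₂, fun v v' hd j hj => ?_⟩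
    rcases Nat.lt_or_ge j (M + 1) with h3 | h3
    · exact h1 v v' (hd.trans_le (min_le_left _ _)) j (by omega)
    · have : j = M + 1 := by omega
      subst this
      exact h2 (hd.trans_le (min_le_right _ _))

namespace TD

variable (h : TD F ψ a π f θ₀ K S)

include h

/-- enumeration of the periodic points of a fibre -/
theorem enum (v : N) (s : ℝ) : ∃ e : Fin K → N, π v ∈ Per f → |s| < θ₀ →
    ∀ w, w ∈ Per (Rt F ψ s) → π w = π v → ∃ i, e i = w := by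
  by_cases hv : π v ∈ Per f ∧ |s| < θ₀
  · have hfin : (Z (S v) s).Finite := (h.sf v hv.1).finite hv.2
    have hcard : hfin.toFinset.card = K := by
      rw [← Set.ncard_eq_toFinset_card _ hfin]
      exact h.card v hv.1 s hv.2
    refine ⟨fun i => ψ (hfin.toFinset.orderEmbOfFin hcard i) v, fun _ _ w hw hwv => ?_⟩
    obtain ⟨t, rfl⟩ := (h.orb.eq _ _).1 hwv.symm
    rw [← psi_fract h.top] at hw
    have h1 : Int.fract t ∈ Z (S v) s :=
      ⟨⟨Int.fract_nonneg t, Int.fract_lt_one t⟩, (h.per v hv.1 s hv.2 _).1 hw⟩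
    have h2 : Int.fract t ∈ Set.range (hfin.toFinset.orderEmbOfFin hcard) := by
      rw [Finset.range_orderEmbOfFin]
      simpa using h1
    obtain ⟨i, hi⟩ := h2
    refine ⟨i, ?_⟩
    show ψ (hfin.toFinset.orderEmbOfFin hcard i) v = ψ t v
    rw [hi, psi_fract h.top]
  · exact ⟨fun _ => v, fun h1 h2 => absurd ⟨h1, h2⟩ hv⟩

/-- **Recurrence of the data.** -/
theorem recur {θ₂ κ : ℝ} (h2 : θ₂ < θ₀) (hκ : 0 < κ) :
    ∃ M : ℕ, ∃ δ : ℝ, 0 < δ ∧ ∀ v v' : N, π v ∈ Per f → π v' ∈ Per f →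
      (∀ j ≤ M, dist (F^[j] v) (F^[j] v') < δ) →
      ∃ l ≤ M, ∀ t, |S (F^[l] v') t| ≤ θ₂ → |S (F^[l] v) t - S (F^[l] v') t| ≤ κ := by
  -- the grid
  obtain ⟨δg, hδg, g1, g2⟩ : ∃ δg : ℝ, 0 < δg ∧ 7 * δg ≤ κ ∧ 9 * δg ≤ θ₀ - θ₂ := by
    refine ⟨min (κ / 7) ((θ₀ - θ₂) / 9), ?_, ?_, ?_⟩
    · have : 0 < θ₀ - θ₂ := by linarith
      positivity
    · have := min_le_left (κ / 7) ((θ₀ - θ₂) / 9)
      linarith
    · have := min_le_right (κ / 7) ((θ₀ - θ₂) / 9)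
      linarith
  obtain ⟨n, hn⟩ : ∃ n : ℤ, n = ⌈θ₀ / δg⌉ - 1 := ⟨_, rfl⟩
  have hn1 : n * δg < θ₀ := by
    have h3 := Int.ceil_lt_add_one (θ₀ / δg)
    have h4 : (n : ℝ) < θ₀ / δg := by
      rw [hn]
      push_cast
      linarith
    rwa [lt_div_iff₀ hδg] at h4
  have hn2 : θ₀ ≤ (n + 1) * δg := by
    have h3 := Int.le_ceil (θ₀ / δg)
    have h4 : θ₀ / δg ≤ n + 1 := by
      rw [hn]
      push_cast
      linarith
    rwa [div_le_iff₀ hδg] at h4
  have hk : ∀ k : ℤ, |k| ≤ n → |(k : ℝ) * δg| ≤ n * δg := by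
    intro k hk
    rw [abs_mul, abs_of_pos hδg]
    have : |(k : ℝ)| ≤ n := by exact_mod_cast hk
    exact mul_le_mul_of_nonneg_right this hδg.le
  obtain ⟨ε, hε, hε1, hε2⟩ : ∃ ε : ℝ, 0 < ε ∧ ε ≤ δg ∧ n * δg + ε ≤ θ₀ := by
    refine ⟨min δg (θ₀ - n * δg), ?_, min_le_left _ _, ?_⟩
    · have : 0 < θ₀ - n * δg := by linarith
      positivity
    · have := min_le_right δg (θ₀ - n * δg)
      linarith
  -- tracking
  have htr : ∀ I : Finset ℤ, ∃ η : ℝ, 0 < η ∧ ∀ k ∈ I, ∀ (z : B) (m : ℕ) (u v : N), 1 ≤ m →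
      f^[m] z = z → dist ((Rt F ψ (k * δg))^[m] u) u < η →
      (∀ i ≤ m, dist (f^[i] z) (π ((Rt F ψ (k * δg))^[i] u)) < η) → π v = z → dist v u < η →
      ∃ θ : ℝ, |θ| < ε ∧ v ∈ Per (Rt F ψ (k * δg + θ)) := by
    intro I
    induction I using Finset.induction_on with
    | empty => exact ⟨1, one_pos, fun k hk => by simp at hk⟩
    | insert k I _ ih =>
      obtain ⟨η, hη, hη'⟩ := ih
      obtain ⟨η₂, hη₂, hη₂'⟩ := track (Rt_cont h.top (k * δg)) (topR h.top (k * δg))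
        (orbR h.orb (k * δg)) hε
      refine ⟨min η η₂, lt_min hη hη₂, fun k' hk' z m u v hm hz hu hsh hv hvu => ?_⟩
      have l1 := min_le_left η η₂
      have l2 := min_le_right η η₂
      rcases Finset.mem_insert.1 hk' with rfl | hk'
      · obtain ⟨θ, hθ, hθ'⟩ := hη₂' z m u v hm hz (hu.trans_le l2)
          (fun i hi => (hsh i hi).trans_le l2) hv (hvu.trans_le l2)
        refine ⟨θ, hθ, ?_⟩
        have e : (fun y => ψ θ (Rt F ψ (k' * δg) y)) = Rt F ψ (k' * δg + θ) := by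
          funext y
          show ψ θ (ψ (k' * δg) (F y)) = ψ (k' * δg + θ) (F y)
          rw [← h.top.add, add_comm]
        rwa [e] at hθ'
      · exact hη' k' hk' z m u v hm hz (hu.trans_le l1) (fun i hi => (hsh i hi).trans_le l1) hv
          (hvu.trans_le l1)
  obtain ⟨η, hη, hη'⟩ := htr (Finset.Icc (-n) n)
  obtain ⟨η₂, hη₂, H2⟩ := psi_unif h.top hη
  obtain ⟨δw, hδw, H3⟩ := u2 h.top h.orb (η₂ / 2) (by linarith)
  obtain ⟨η₁, hη₁, H4⟩ := h.clos (min (η / 2) δw) (by positivity)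
  obtain ⟨δπ, hδπ, H5⟩ := Metric.uniformContinuous_iff.1
    (CompactSpace.uniformContinuous_of_continuous h.orb.cont) (min η₁ (η / 2)) (by positivity)
  choose e he using fun (v : N) (k : ℤ) => h.enum v (k * δg)
  obtain ⟨M, hM⟩ := pig_compact
    (Option (Bool × (↥(Finset.Icc (-n) n)) × Fin K) → N) (η := min η δπ) (by positivity)
  refine ⟨M, min δπ (η₂ / 2), by positivity, fun v v' hv hv' hcl => ?_⟩
  let V : Bool → N := fun c => if c then v' else v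
  have hV : ∀ c, π (V c) ∈ Per f := by
    intro c
    cases c
    · exact hv
    · exact hv'
  let X : ℕ → Option (Bool × (↥(Finset.Icc (-n) n)) × Fin K) → N := fun j o =>
    match o with
    | none => F^[j] v
    | some (c, k, i) => (Rt F ψ ((k : ℤ) * δg))^[j] (e (V c) k i)
  obtain ⟨j₁, j₂, hj, hjM, hX⟩ := hM X
  have hX' : ∀ o, dist (X j₁ o) (X j₂ o) < min η δπ := fun o => (dist_le_pi_dist _ _ o).trans_lt hX
  have hb : dist (F^[j₁] v) (F^[j₂] v) < min η δπ := hX' none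
  obtain ⟨m, hm, rfl⟩ : ∃ m, 1 ≤ m ∧ j₂ = m + j₁ := ⟨j₂ - j₁, by omega, by omega⟩
  -- the periodic point `z`
  have e1 : dist (f^[m] (π (F^[j₁] v))) (π (F^[j₁] v)) < η₁ := by
    rw [← semi_iter h.orb, ← Function.iterate_add_apply, dist_comm]
    exact (H5 (hb.trans_le (min_le_right _ _))).trans_le (min_le_left _ _)
  obtain ⟨z, hz, hzs⟩ := H4 _ m hm e1
  obtain ⟨w, hw, hwd⟩ := H3 (F^[j₁] v) z ((hzs 0 (Nat.zero_le _)).trans_le (min_le_right _ _))
  have hwP : π w ∈ Per f := by rw [hw]; exact ⟨m, hm, hz⟩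
  have hVd : ∀ c, dist w (F^[j₁] (V c)) < η₂ := by
    intro c
    cases c
    · exact hwd.trans (by linarith)
    · have h3 := (hcl j₁ (by omega)).trans_le (min_le_right _ _)
      have h4 := dist_triangle w (F^[j₁] v) (F^[j₁] v')
      show dist w (F^[j₁] v') < η₂
      linarith
  have hVs : ∀ c, ∀ i ≤ m, dist (f^[i] z) (f^[i] (π (F^[j₁] (V c)))) < η := by
    intro c i hi
    have h3 := (hzs i hi).trans_le (min_le_left _ _)
    cases c
    · exact h3.trans (by linarith)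
    · show dist (f^[i] z) (f^[i] (π (F^[j₁] v'))) < η
      have h4 := (H5 ((hcl (i + j₁) (by omega)).trans_le (min_le_left _ _))).trans_le
        (min_le_right _ _)
      rw [Function.iterate_add_apply, Function.iterate_add_apply, semi_iter h.orb i (F^[j₁] v),
        semi_iter h.orb i (F^[j₁] v')] at h4
      have h5 := dist_triangle (f^[i] z) (f^[i] (π (F^[j₁] v))) (f^[i] (π (F^[j₁] v')))
      linarith
  have tr : ∀ c, ∀ t, ∀ k : ℤ, |k| ≤ n → S (F^[j₁] (V c)) t = k * δg → |S w t - k * δg| < δg := by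
    intro c t k hkn hS
    have hkI : k ∈ Finset.Icc (-n) n := Finset.mem_Icc.2 (abs_le.1 hkn)
    have hkθ : |(k : ℝ) * δg| < θ₀ := (hk k hkn).trans_lt hn1
    have h3 := (h.per _ (h.perFi (hV c) j₁) _ hkθ t).2 hS
    obtain ⟨w', hw'⟩ := (Rt_surj h.top ((k : ℝ) * δg)).iterate j₁ (ψ t (F^[j₁] (V c)))
    have h4 : w' ∈ Per (Rt F ψ (k * δg)) := by
      rw [← hw'] at h3
      exact per_iter_back (Rt_inj h.top _) h3
    have h5 : π w' = π (V c) := by
      refine (f_inj h.top h.orb).iterate j₁ ?_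
      rw [← semi_iter (orbR h.orb (k * δg)), hw', pi_psi h.orb, semi_iter h.orb]
    obtain ⟨i, hi⟩ := he (V c) k (hV c) hkθ w' h4 h5
    have h6 := hX' (some (c, ⟨k, hkI⟩, i))
    have h7 : X j₁ (some (c, ⟨k, hkI⟩, i)) = ψ t (F^[j₁] (V c)) := by
      show (Rt F ψ ((k : ℤ) * δg))^[j₁] (e (V c) k i) = _
      rw [hi, hw']
    have h8 : X (m + j₁) (some (c, ⟨k, hkI⟩, i)) =
        (Rt F ψ (k * δg))^[m] (ψ t (F^[j₁] (V c))) := by
      show (Rt F ψ ((k : ℤ) * δg))^[m + j₁] (e (V c) k i) = _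
      rw [hi, Function.iterate_add_apply, hw']
    rw [h7, h8, dist_comm] at h6
    obtain ⟨θ, hθ, hθ'⟩ := hη' k hkI z m (ψ t (F^[j₁] (V c))) (ψ t w) hm hz
      (h6.trans_le (min_le_left _ _)) (fun i hi => by
        rw [semi_iter (orbR h.orb (k * δg)), pi_psi h.orb]
        exact hVs c i hi) (by rw [pi_psi h.orb, hw]) (H2 t _ _ (hVd c))
    have h9 : |(k : ℝ) * δg + θ| < θ₀ := by
      have := abs_add_le ((k : ℝ) * δg) θ
      have := hk k hkn
      linarith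
    rw [(h.per w hwP _ h9 t).1 hθ']
    rw [add_sub_cancel_left]
    linarith
  refine ⟨j₁, by omega, fun t ht => ?_⟩
  have hc1 : ∀ ρ, |ρ| < θ₀ → (Z (S w) ρ).ncard ≤ (Z (S (F^[j₁] v)) ρ).ncard := by
    intro ρ hρ
    rw [h.card w hwP ρ hρ, h.card _ (h.perFi hv j₁) ρ hρ]
  have hc2 : ∀ ρ, |ρ| < θ₀ → (Z (S w) ρ).ncard ≤ (Z (S (F^[j₁] v')) ρ).ncard := by
    intro ρ hρ
    rw [h.card w hwP ρ hρ, h.card _ (h.perFi hv' j₁) ρ hρ]
  have h3 := grid3 (h.sf _ (h.perFi hv j₁)) (h.sf _ (h.perFi hv' j₁)) (h.sf w hwP) hδg hn1 hc1 hc2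
    (tr false) (tr true) t (by linarith)
  linarith

end TD

end

end Pool.Agent.V5helper25.TK
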